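import Mathlib

set_option autoImplicit false

/-!
# Control of an aligned pair of far stones: the finite game on one line

Places on the line are numbered by natural numbers, sets of places are binary numbers.
-/

namespace Pool.Agent.H686.GomPair

/-- the window `i, …, i + 4` of `S` -/
def wd (S i : ℕ) : ℕ := (S >>> i) % 32

/-- at most one set bit, for numbers below `32` -/
def p1 (x : ℕ) : Bool := !(Nat.testBit 4294901480 x)
/-- at most two set bits -/
def p2 (x : ℕ) : Bool := !(Nat.testBit 4276676736 x)
/-- at most three set bits -/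
def p3 (x : ℕ) : Bool := !(Nat.testBit 3900735488 x)

/-- the windows `0, …, i - 1` free of `EA` have at most three places of `S` -/
def thin : ℕ → ℕ → ℕ → Bool
  | 0, _, _ => true
  | i + 1, EA, S => (p3 (wd S i) || !(wd EA i == 0)) && thin i EA S

/-- the places of the windows free of `EA` with at least three places of `S` -/
def dang : ℕ → ℕ → ℕ → ℕ
  | 0, _, _ => 0
  | i + 1, EA, S => bif p2 (wd S i) || !(wd EA i == 0) then dang i EA S else (31 <<< i) ||| dang i EA S

/-- the windows `0, …, i - 1` free of `EA` and not contained in `[4, n - 5]` have at most one place of `S` -/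
def near (n : ℕ) : ℕ → ℕ → ℕ → Bool
  | 0, _, _ => true
  | i + 1, EA, S => ((decide (4 ≤ i) && decide (i + 9 ≤ n)) || p1 (wd S i) || !(wd EA i == 0)) &&
      near n i EA S

/-- the game with one pass left -/
def ctl1 (n w : ℕ) : ℕ → ℕ → ℕ → ℕ → Bool
  | 0, _, _, _ => false
  | m + 1, EA, U, V => thin w EA (U ||| V) && ((dang w EA (U ||| V) == 0) ||
      (List.range n).all fun y => (EA ||| (U ||| V)).testBit y || !((dang w EA (U ||| V)).testBit y) ||
        (decide (4 ≤ y) && decide (y + 5 ≤ n) && (List.range n).any fun b =>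
          decide (4 ≤ b) && decide (b + 5 ≤ n) && !(b == y) && !((EA ||| (U ||| V)).testBit b) &&
          near n w (EA ||| (1 <<< b)) (U ||| (1 <<< y)) &&
          ctl1 n w m (EA ||| (1 <<< b)) (U ||| (1 <<< y)) V))

/-- the game with two passes left -/
def ctl2 (n w : ℕ) : ℕ → ℕ → ℕ → Bool
  | 0, _, _ => false
  | m + 1, EA, U => thin w EA U && ctl1 n w m EA U 0 &&
      (List.range n).all fun y => (EA ||| U).testBit y || ctl1 n w m EA U (1 <<< y) ||
        (decide (4 ≤ y) && decide (y + 5 ≤ n) && (List.range n).any fun b =>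
          decide (4 ≤ b) && decide (b + 5 ≤ n) && !(b == y) && !((EA ||| U).testBit b) &&
          near n w (EA ||| (1 <<< b)) (U ||| (1 <<< y)) &&
          ctl2 n w m (EA ||| (1 <<< b)) (U ||| (1 <<< y)))

/-- the check for one pair: the range is `[-lo, hi]` -/
def chk (t lo hi : ℕ) : Bool :=
  near (lo + hi + 9) (lo + hi + 5) 0 ((1 <<< (lo + 4)) ||| (1 <<< (lo + 4 + t))) &&
  ctl2 (lo + hi + 9) (lo + hi + 5) 6 0 ((1 <<< (lo + 4)) ||| (1 <<< (lo + 4 + t)))

theorem chk1 : chk 1 3 4 = true := by decide +kernel
theorem chk2 : chk 2 4 4 = true := by decide +kernel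
theorem chk3 : chk 2 2 6 = true := by decide +kernel
theorem chk4 : chk 3 4 5 = true := by decide +kernel
theorem chk5 : chk 3 3 6 = true := by decide +kernel
theorem chk6 : chk 3 2 7 = true := by decide +kernel
theorem chk7 : chk 4 3 5 = true := by decide +kernel
theorem chk8 : chk 4 1 7 = true := by decide +kernel

end Pool.Agent.H686.GomPair
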