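import Pool.Agent.H184.Gomoku.Env
import Pool.Agent.H686.GomPairC

set_option autoImplicit false

/-!
# Control of an aligned pair of far stones (the statement `S_pair`)
-/

namespace Pool.Agent.H686.GomPair

open Pool.Agent.H184.Gomoku

/-! ### windows and bits -/

/-- number of set bits among the places `0, …, 4` -/
def pc (x : ℕ) : ℕ := ((Finset.range 5).filter (fun k => x.testBit k = true)).card

theorem p1_spec : ∀ x < 32, p1 x = true → pc x ≤ 1 := by decide
theorem p2_spec : ∀ x < 32, p2 x = true → pc x ≤ 2 := by decide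
theorem p3_spec : ∀ x < 32, p3 x = true → pc x ≤ 3 := by decide

theorem wd_lt (S i : ℕ) : wd S i < 32 := Nat.mod_lt _ (by norm_num)

theorem wd_testBit (S i k : ℕ) (hk : k < 5) : (wd S i).testBit k = S.testBit (i + k) := by
  unfold wd
  rw [show (32 : ℕ) = 2 ^ 5 by norm_num, Nat.testBit_mod_two_pow, Nat.testBit_shiftRight]
  simp [hk]

theorem wd_zero {S i : ℕ} (h : ∀ k < 5, S.testBit (i + k) = false) : wd S i = 0 := by
  apply Nat.eq_of_testBit_eq
  intro k
  rw [Nat.zero_testBit]
  by_cases hk : k < 5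
  · rw [wd_testBit _ _ _ hk, h k hk]
  · unfold wd
    rw [show (32 : ℕ) = 2 ^ 5 by norm_num, Nat.testBit_mod_two_pow]
    simp [hk]

theorem thin_spec {n EA S : ℕ} (h : thin n EA S = true) :
    ∀ i < n, wd EA i = 0 → pc (wd S i) ≤ 3 := by
  induction n with
  | zero => intro i hi; omega
  | succ n ih =>
    simp only [thin, Bool.and_eq_true, Bool.or_eq_true, Bool.not_eq_true', beq_eq_false_iff_ne, ne_eq] at h
    intro i hi h0
    rcases Nat.lt_succ_iff_lt_or_eq.1 hi with hi | rfl
    · exact ih h.2 i hi h0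
    · rcases h.1 with h1 | h1
      · exact p3_spec _ (wd_lt _ _) h1
      · exact absurd h0 h1

theorem near_spec {n w EA S : ℕ} (h : near n w EA S = true) :
    ∀ i < w, wd EA i = 0 → ¬ (4 ≤ i ∧ i + 9 ≤ n) → pc (wd S i) ≤ 1 := by
  induction w with
  | zero => intro i hi; omega
  | succ w ih =>
    simp only [near, Bool.and_eq_true, Bool.or_eq_true, Bool.not_eq_true', beq_eq_false_iff_ne, ne_eq,
      decide_eq_true_eq] at h
    intro i hi h0 h4
    rcases Nat.lt_succ_iff_lt_or_eq.1 hi with hi | rfl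
    · exact ih h.2 i hi h0 h4
    · rcases h.1 with (h1 | h1) | h1
      · exact absurd h1 h4
      · exact p1_spec _ (wd_lt _ _) h1
      · exact absurd h0 h1

theorem dang_spec {n EA S y : ℕ} (h : (dang n EA S).testBit y = false) :
    ∀ i < n, wd EA i = 0 → i ≤ y → y < i + 5 → pc (wd S i) ≤ 2 := by
  induction n with
  | zero => intro i hi; omega
  | succ n ih =>
    intro i hi h0 h4 h5
    unfold dang at h
    by_cases hc : (p2 (wd S n) || !(wd EA n == 0)) = true
    · rw [hc, cond_true] at h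
      rcases Nat.lt_succ_iff_lt_or_eq.1 hi with hi | rfl
      · exact ih h i hi h0 h4 h5
      · simp only [Bool.or_eq_true, Bool.not_eq_true', beq_eq_false_iff_ne, ne_eq] at hc
        rcases hc with h1 | h1
        · exact p2_spec _ (wd_lt _ _) h1
        · exact absurd h0 h1
    · rw [Bool.not_eq_true] at hc
      rw [hc, cond_false, Nat.testBit_or, Bool.or_eq_false_iff] at h
      rcases Nat.lt_succ_iff_lt_or_eq.1 hi with hi | rfl
      · exact ih h.2 i hi h0 h4 h5
      · exfalso
        have h1 := h.1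
        rw [Nat.testBit_shiftLeft] at h1
        obtain ⟨j, rfl⟩ := Nat.exists_eq_add_of_le h4
        have hj : j < 5 := by omega
        simp only [ge_iff_le, Nat.le_add_right, decide_true, Nat.add_sub_cancel_left, Bool.true_and] at h1
        interval_cases j <;> simp_all (config := {decide := true})

/-! ### lines of the board -/

/-- the place number `i` of the line -/
def P (w d : Cell) (lo : ℤ) (i : ℕ) : Cell := w + ((i : ℤ) + lo - 4) • d

theorem dirs_ne_zero {d : Cell} (hd : d ∈ dirs) : d ≠ 0 := by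
  rintro rfl
  simp only [dirs, Finset.mem_insert, Finset.mem_singleton] at hd
  rcases hd with h | h | h | h
  · exact absurd (congrArg Prod.fst h) (by norm_num)
  · exact absurd (congrArg Prod.snd h) (by norm_num)
  · exact absurd (congrArg Prod.snd h) (by norm_num)
  · exact absurd (congrArg Prod.snd h) (by norm_num)

theorem dirs_indep {d d' : Cell} (hd : d ∈ dirs) (hd' : d' ∈ dirs) {x z : ℤ} (hx : x ≠ 0)
    (h : x • d' = z • d) : d' = d ∧ x = z := by
  simp only [dirs, Finset.mem_insert, Finset.mem_singleton] at hd hd'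
  rcases hd with rfl | rfl | rfl | rfl <;> rcases hd' with rfl | rfl | rfl | rfl <;>
    simp only [Prod.smul_mk, smul_eq_mul, mul_one, mul_zero, mul_neg, Prod.mk.injEq] at h <;>
    first
    | (exact ⟨rfl, by omega⟩)
    | (exfalso; omega)

theorem P_inj {w d : Cell} {lo : ℤ} (hd : d ∈ dirs) {i j : ℕ} (h : P w d lo i = P w d lo j) : i = j := by
  unfold P at h
  have h1 := add_left_cancel h
  have h2 : ((i : ℤ) - j) • d = 0 := by
    have : ((i : ℤ) - j) = ((i : ℤ) + lo - 4) - ((j : ℤ) + lo - 4) := by ring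
    rw [this, sub_smul, h1, sub_self]
  rcases smul_eq_zero.1 h2 with h3 | h3
  · omega
  · exact absurd h3 (dirs_ne_zero hd)

theorem P_add (w d : Cell) (lo : ℤ) (i k : ℕ) : P w d lo i + (k : ℤ) • d = P w d lo (i + k) := by
  unfold P
  rw [add_assoc, ← add_smul]
  congr 2
  push_cast
  ring

/-- `M` represents the cells of `S` at the places below `n` -/
def Rep (w d : Cell) (lo : ℤ) (n : ℕ) (S : Set Cell) (M : ℕ) : Prop :=
  ∀ i < n, (P w d lo i ∈ S ↔ M.testBit i = true)

/-- all cells of `S` are at inner places -/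
def Inner (w d : Cell) (lo : ℤ) (n : ℕ) (S : Set Cell) : Prop :=
  ∀ c ∈ S, ∃ i, 4 ≤ i ∧ i + 5 ≤ n ∧ c = P w d lo i

section
variable {w d : Cell} {lo : ℤ} {n : ℕ}

theorem cnt_P {S : Set Cell} {M : ℕ} (hS : Rep w d lo n S M) {i : ℕ} (hi : i + 5 ≤ n) :
    cnt S (P w d lo i) d = pc (wd M i) := by
  unfold cnt pc
  apply congrArg Finset.card
  ext k
  simp only [Finset.mem_filter, Finset.mem_range]
  constructor
  · rintro ⟨hk, h⟩
    rw [P_add, hS _ (by omega)] at h
    exact ⟨hk, by rw [wd_testBit _ _ _ hk]; exact h⟩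
  · rintro ⟨hk, h⟩
    rw [wd_testBit _ _ _ hk] at h
    exact ⟨hk, by rw [P_add, hS _ (by omega)]; exact h⟩

theorem free_P {S : Set Cell} {M : ℕ} (hS : Rep w d lo n S M) {i : ℕ} (hi : i + 5 ≤ n)
    (hf : Free S (P w d lo i) d) : wd M i = 0 := by
  apply wd_zero
  intro k hk
  have := hf k hk
  rw [P_add, hS _ (by omega)] at this
  simpa using this

theorem cnt_out (hd : d ∈ dirs) {U : Set Cell} (hU : Inner w d lo n U) {a d' : Cell} (hd' : d' ∈ dirs)
    (h : ¬ ∃ i, i + 5 ≤ n ∧ a = P w d lo i ∧ d' = d) : cnt U a d' ≤ 1 := by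
  unfold cnt
  rw [Finset.card_le_one]
  intro k hk k' hk'
  simp only [Finset.mem_filter, Finset.mem_range] at hk hk'
  by_contra hne
  obtain ⟨i, hi4, hi5, hi⟩ := hU _ hk.2
  obtain ⟨j, hj4, hj5, hj⟩ := hU _ hk'.2
  have e1 : ((k : ℤ) - k') • d' = ((i : ℤ) - j) • d := by
    have h1 : (a + (k : ℤ) • d') - (a + (k' : ℤ) • d') = P w d lo i - P w d lo j := by rw [hi, hj]
    unfold P at h1
    rw [add_sub_add_left_eq_sub, add_sub_add_left_eq_sub, ← sub_smul, ← sub_smul] at h1
    rw [h1]
    congr 1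
    ring
  obtain ⟨e2, e3⟩ := dirs_indep hd hd' (by omega) e1
  apply h
  refine ⟨i - k, by omega, ?_, e2⟩
  have e4 : P w d lo i = P w d lo (i - k) + (k : ℤ) • d := by
    rw [P_add]
    congr 1
    omega
  rw [e4, e2] at hi
  exact add_right_cancel hi

theorem cnt_union (U V : Set Cell) (a d' : Cell) : cnt (U ∪ V) a d' ≤ cnt U a d' + cnt V a d' := by
  classical
  unfold cnt
  refine (Finset.card_le_card ?_).trans (Finset.card_union_le _ _)
  intro k hk
  simp only [Finset.mem_filter, Finset.mem_union, Set.mem_union] at hk ⊢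
  tauto

theorem cnt_le_ncard {V : Set Cell} (hV : V.Finite) (a : Cell) {d' : Cell} (hd' : d' ∈ dirs) :
    cnt V a d' ≤ V.ncard := by
  classical
  unfold cnt
  rw [Set.ncard_eq_toFinset_card V hV]
  apply Finset.card_le_card_of_injOn (fun k : ℕ => a + (k : ℤ) • d')
  · intro k hk
    rw [Finset.mem_coe, Finset.mem_filter] at hk
    simpa using hk.2
  · intro k _ k' _ h
    have h1 := add_left_cancel h
    have h2 : ((k : ℤ) - k') • d' = 0 := by
      have h3 : (k : ℤ) • d' = (k' : ℤ) • d' := h1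
      rw [sub_smul, h3, sub_self]
    rcases smul_eq_zero.1 h2 with h3 | h3
    · omega
    · exact absurd h3 (dirs_ne_zero hd')

theorem rep_union {S T : Set Cell} {M N : ℕ} (hS : Rep w d lo n S M) (hT : Rep w d lo n T N) :
    Rep w d lo n (S ∪ T) (M ||| N) := by
  intro i hi
  rw [Set.mem_union, hS i hi, hT i hi, Nat.testBit_or, Bool.or_eq_true]

theorem bit_one (i j : ℕ) : (1 <<< i).testBit j = true ↔ i = j := by
  rw [Nat.one_shiftLeft, Nat.testBit_two_pow]
  simp

theorem rep_insert (hd : d ∈ dirs) {S : Set Cell} {M : ℕ} (hS : Rep w d lo n S M) (i : ℕ) :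
    Rep w d lo n (insert (P w d lo i) S) (M ||| (1 <<< i)) := by
  intro j hj
  rw [Set.mem_insert_iff, hS j hj, Nat.testBit_or, Bool.or_eq_true, bit_one]
  constructor
  · rintro (h | h)
    · exact Or.inr (P_inj hd h).symm
    · exact Or.inl h
  · rintro (h | h)
    · exact Or.inr h
    · exact Or.inl (by rw [h])

theorem rep_insert_out {S : Set Cell} {M : ℕ} (hS : Rep w d lo n S M) {y : Cell}
    (hy : ¬ ∃ i < n, y = P w d lo i) : Rep w d lo n (insert y S) M := by
  intro j hj
  rw [Set.mem_insert_iff, hS j hj]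
  constructor
  · rintro (h | h)
    · exact absurd ⟨j, hj, h.symm⟩ hy
    · exact h
  · exact Or.inr

theorem rep_empty : Rep w d lo n ∅ 0 := by
  intro j _
  simp

theorem inner_insert {S : Set Cell} (hS : Inner w d lo n S) {i : ℕ} (h4 : 4 ≤ i) (h5 : i + 5 ≤ n) :
    Inner w d lo n (insert (P w d lo i) S) := by
  rintro c (rfl | hc)
  · exact ⟨i, h4, h5, rfl⟩
  · exact hS c hc

/-! ### soundness of the check -/

variable {E : Set Cell}

theorem thin_sound (hd : d ∈ dirs) {MEA MU MV : ℕ} {EA U V : Set Cell} (hEA : Rep w d lo n EA MEA)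
    (hU : Rep w d lo n U MU) (hV : Rep w d lo n V MV) (hUi : Inner w d lo n U) (hVf : V.Finite)
    (hVc : V.ncard ≤ 2) (hth : ∀ i < n - 4, wd MEA i = 0 → pc (wd (MU ||| MV) i) ≤ 3) :
    Thin EA (U ∪ V) 3 := by
  intro a d' hd' hf
  by_cases h : ∃ i, i + 5 ≤ n ∧ a = P w d lo i ∧ d' = d
  · obtain ⟨i, hi, rfl, rfl⟩ := h
    rw [cnt_P (rep_union hU hV) hi]
    exact hth i (by omega) (free_P hEA hi hf)
  · have h1 := cnt_out hd hUi hd' h
    have h2 := cnt_le_ncard hVf a hd'
    have h3 := cnt_union U V a d'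
    omega

theorem near_sound (hd : d ∈ dirs) (hE : ∀ i, 4 ≤ i → i + 5 ≤ n → P w d lo i ∉ E) {MEA MU : ℕ}
    {EA U : Set Cell} (hEA : Rep w d lo n EA MEA) (hU : Rep w d lo n U MU) (hEi : Inner w d lo n EA)
    (hUi : Inner w d lo n U) (hdis : ∀ c ∈ EA, c ∉ U) (hn : near n (n - 4) MEA MU = true) :
    Near E EA U := by
  refine ⟨?_, ?_, hdis, ?_⟩
  · intro c hc
    obtain ⟨i, h4, h5, rfl⟩ := hEi c hc
    exact hE i h4 h5
  · intro c hc
    obtain ⟨i, h4, h5, rfl⟩ := hUi c hc
    exact hE i h4 h5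
  · intro a d' hd' hf hm
    by_cases h : ∃ i, i + 5 ≤ n ∧ a = P w d lo i ∧ d' = d
    · obtain ⟨i, hi, rfl, rfl⟩ := h
      rw [cnt_P hU hi]
      refine near_spec hn i (by omega) (free_P hEA hi hf) ?_
      rintro ⟨h4, h9⟩
      obtain ⟨k, hk, hkE⟩ := hm
      rw [P_add] at hkE
      exact hE (i + k) (by omega) (by omega) hkE
    · exact cnt_out hd hUi hd' h

theorem thin_step {MEA MS y : ℕ}
    (hth : thin (n - 4) MEA MS = true) (hdg : (dang (n - 4) MEA MS).testBit y = false) :
    ∀ i < n - 4, wd MEA i = 0 → pc (wd (MS ||| (1 <<< y)) i) ≤ 3 := by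
  intro i hi h0
  by_cases h : i ≤ y ∧ y < i + 5
  · have h1 := dang_spec hdg i hi h0 h.1 h.2
    have h2 : pc (wd (MS ||| (1 <<< y)) i) ≤ pc (wd MS i) + 1 := by
      unfold pc
      have h3 : (Finset.range 5).filter (fun k => (wd (MS ||| (1 <<< y)) i).testBit k = true) ⊆
          insert (y - i) ((Finset.range 5).filter (fun k => (wd MS i).testBit k = true)) := by
        intro k hk
        simp only [Finset.mem_filter, Finset.mem_range, Finset.mem_insert] at hk ⊢
        obtain ⟨hk5, hk⟩ := hk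
        rw [wd_testBit _ _ _ hk5, Nat.testBit_or, Bool.or_eq_true, bit_one] at hk
        rcases hk with hk | hk
        · right
          refine ⟨hk5, ?_⟩
          rw [wd_testBit _ _ _ hk5]
          exact hk
        · left; omega
      exact (Finset.card_le_card h3).trans (Finset.card_insert_le _ _)
    omega
  · have h1 := thin_spec hth i hi h0
    have h2 : wd (MS ||| (1 <<< y)) i = wd MS i := by
      apply Nat.eq_of_testBit_eq
      intro k
      by_cases hk : k < 5
      · rw [wd_testBit _ _ _ hk, wd_testBit _ _ _ hk, Nat.testBit_or]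
        have : (1 <<< y).testBit (i + k) = false := by
          rw [Bool.eq_false_iff]
          intro hc
          rw [bit_one] at hc
          omega
        rw [this, Bool.or_false]
      · unfold wd
        rw [show (32 : ℕ) = 2 ^ 5 by norm_num, Nat.testBit_mod_two_pow, Nat.testBit_mod_two_pow]
        simp [hk]
    rw [h2]
    exact h1

theorem ctl_zero {m : ℕ} {EA U V : Set Cell} (h : Thin EA (U ∪ V) 3) : Ctl E m 0 EA U V := by
  cases m with
  | zero => exact ⟨h, rfl⟩
  | succ m => exact ⟨h, Or.inl rfl⟩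

theorem ctl1_sound (hd : d ∈ dirs) (hE : ∀ i, 4 ≤ i → i + 5 ≤ n → P w d lo i ∉ E) (m : ℕ) :
    ∀ (MEA MU MV : ℕ) (EA U V : Set Cell), Rep w d lo n EA MEA → Rep w d lo n U MU → Rep w d lo n V MV →
      Inner w d lo n EA → Inner w d lo n U → (∀ c ∈ EA, c ∉ U) → V.Finite → V.ncard ≤ 1 →
      ctl1 n (n - 4) m MEA MU MV = true → Ctl E m 1 EA U V := by
  induction m with
  | zero => intro MEA MU MV EA U V _ _ _ _ _ _ _ _ h; simp [ctl1] at h
  | succ m ih =>
    intro MEA MU MV EA U V hEA hU hV hEi hUi hdis hVf hVc h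
    rw [ctl1, Bool.and_eq_true] at h
    obtain ⟨hth, h⟩ := h
    have hth' := thin_spec hth
    refine ⟨thin_sound hd hEA hU hV hUi hVf (by omega) hth', Or.inr ?_⟩
    intro y hyE hyU hyV
    have hVc2 : (insert y V).ncard ≤ 2 := (Set.ncard_insert_le y V).trans (by omega)
    by_cases hy : ∃ i < n, y = P w d lo i
    · obtain ⟨i, hi, rfl⟩ := hy
      have hbE : MEA.testBit i = false := by
        rw [Bool.eq_false_iff]; intro hc; exact hyE ((hEA i hi).2 hc)
      have hbU : MU.testBit i = false := by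
        rw [Bool.eq_false_iff]; intro hc; exact hyU ((hU i hi).2 hc)
      have hbV : MV.testBit i = false := by
        rw [Bool.eq_false_iff]; intro hc; exact hyV ((hV i hi).2 hc)
      by_cases hdg : (dang (n - 4) MEA (MU ||| MV)).testBit i = false
      · left
        refine ⟨0, rfl, ctl_zero ?_⟩
        refine thin_sound hd hEA hU (rep_insert hd hV i) hUi (hVf.insert _) hVc2 ?_
        rw [← Nat.or_assoc]
        exact thin_step hth hdg
      · right
        have hdg1 : (dang (n - 4) MEA (MU ||| MV)).testBit i = true := by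
          rw [← Bool.not_eq_false]; exact hdg
        rw [Bool.or_eq_true] at h
        rcases h with h | h
        · exfalso
          rw [beq_iff_eq] at h
          rw [h, Nat.zero_testBit] at hdg1
          exact Bool.false_ne_true hdg1
        · rw [List.all_eq_true] at h
          have h1 := h i (List.mem_range.2 hi)
          rw [Nat.testBit_or, Nat.testBit_or, hbE, hbU, hbV, hdg1] at h1
          simp only [Bool.or_self, Bool.not_true, Bool.false_or, Bool.and_eq_true, decide_eq_true_eq,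
            List.any_eq_true, List.mem_range, Bool.not_eq_true', beq_eq_false_iff_ne, ne_eq] at h1
          obtain ⟨⟨hi4, hi5⟩, b, hbn, ⟨⟨⟨⟨hb4, hb5⟩, hbi⟩, hbo⟩, hnear⟩, hctl⟩ := h1
          rw [Nat.testBit_or, Nat.testBit_or, Bool.or_eq_false_iff, Bool.or_eq_false_iff] at hbo
          have hbE' : P w d lo b ∉ EA := by
            rw [hEA b hbn, hbo.1]; exact Bool.false_ne_true
          have hbU' : P w d lo b ∉ U := by
            rw [hU b hbn, hbo.2.1]; exact Bool.false_ne_true
          have hbV' : P w d lo b ∉ V := by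
            rw [hV b hbn, hbo.2.2]; exact Bool.false_ne_true
          have hby : P w d lo b ≠ P w d lo i := fun hc => hbi (P_inj hd hc)
          have hdis' : ∀ c ∈ insert (P w d lo b) EA, c ∉ insert (P w d lo i) U := by
            rintro c (rfl | hc) (hc' | hc')
            · exact hby hc'
            · exact hbU' hc'
            · rw [hc'] at hc; exact hyE hc
            · exact hdis c hc hc'
          have hEA' := rep_insert hd hEA b
          have hU' := rep_insert hd hU i
          have hEi' := inner_insert hEi hb4 hb5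
          have hUi' := inner_insert hUi hi4 hi5
          exact ⟨P w d lo b, hbE', hbU', hbV', hby, hE b hb4 hb5, hE i hi4 hi5,
            near_sound hd hE hEA' hU' hEi' hUi' hdis' hnear,
            ih _ _ _ _ _ _ hEA' hU' hV hEi' hUi' hdis' hVf hVc hctl⟩
    · left
      refine ⟨0, rfl, ctl_zero ?_⟩
      exact thin_sound hd hEA hU (rep_insert_out hV hy) hUi (hVf.insert _) hVc2 hth'

theorem ctl2_sound (hd : d ∈ dirs) (hE : ∀ i, 4 ≤ i → i + 5 ≤ n → P w d lo i ∉ E) (m : ℕ) :
    ∀ (MEA MU : ℕ) (EA U : Set Cell), Rep w d lo n EA MEA → Rep w d lo n U MU →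
      Inner w d lo n EA → Inner w d lo n U → (∀ c ∈ EA, c ∉ U) →
      ctl2 n (n - 4) m MEA MU = true → Ctl E m 2 EA U ∅ := by
  induction m with
  | zero => intro MEA MU EA U _ _ _ _ _ h; simp [ctl2] at h
  | succ m ih =>
    intro MEA MU EA U hEA hU hEi hUi hdis h
    rw [ctl2, Bool.and_eq_true, Bool.and_eq_true] at h
    obtain ⟨⟨hth, h1⟩, h⟩ := h
    have hth' := thin_spec hth
    have hV0 : Rep w d lo n (∅ : Set Cell) 0 := rep_empty
    refine ⟨thin_sound hd hEA hU hV0 hUi Set.finite_empty (by simp) (by rw [Nat.or_zero]; exact hth'),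
      Or.inr ?_⟩
    intro y hyE hyU _
    have hc1 : (insert y (∅ : Set Cell)).ncard ≤ 1 := (Set.ncard_insert_le y ∅).trans (by simp)
    by_cases hy : ∃ i < n, y = P w d lo i
    · obtain ⟨i, hi, rfl⟩ := hy
      have hbE : MEA.testBit i = false := by
        rw [Bool.eq_false_iff]; intro hc; exact hyE ((hEA i hi).2 hc)
      have hbU : MU.testBit i = false := by
        rw [Bool.eq_false_iff]; intro hc; exact hyU ((hU i hi).2 hc)
      rw [List.all_eq_true] at h
      have h2 := h i (List.mem_range.2 hi)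
      rw [Nat.testBit_or, hbE, hbU] at h2
      simp only [Bool.or_self, Bool.false_or, Bool.or_eq_true, Bool.and_eq_true, decide_eq_true_eq,
        List.any_eq_true, List.mem_range, Bool.not_eq_true', beq_eq_false_iff_ne, ne_eq] at h2
      rcases h2 with h2 | ⟨⟨hi4, hi5⟩, b, hbn, ⟨⟨⟨⟨hb4, hb5⟩, hbi⟩, hbo⟩, hnear⟩, hctl⟩
      · left
        refine ⟨1, rfl, ?_⟩
        have hV1 := rep_insert hd hV0 i
        rw [Nat.zero_or] at hV1
        exact ctl1_sound hd hE m _ _ _ _ _ _ hEA hU hV1 hEi hUi hdis (Set.finite_empty.insert _) hc1 h2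
      · right
        rw [Nat.testBit_or, Bool.or_eq_false_iff] at hbo
        have hbE' : P w d lo b ∉ EA := by
          rw [hEA b hbn, hbo.1]; exact Bool.false_ne_true
        have hbU' : P w d lo b ∉ U := by
          rw [hU b hbn, hbo.2]; exact Bool.false_ne_true
        have hby : P w d lo b ≠ P w d lo i := fun hc => hbi (P_inj hd hc)
        have hdis' : ∀ c ∈ insert (P w d lo b) EA, c ∉ insert (P w d lo i) U := by
          rintro c (rfl | hc) (hc' | hc')
          · exact hby hc'
          · exact hbU' hc'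
          · rw [hc'] at hc; exact hyE hc
          · exact hdis c hc hc'
        have hEA' := rep_insert hd hEA b
        have hU' := rep_insert hd hU i
        have hEi' := inner_insert hEi hb4 hb5
        have hUi' := inner_insert hUi hi4 hi5
        exact ⟨P w d lo b, hbE', hbU', fun hc => hc.elim, hby, hE b hb4 hb5, hE i hi4 hi5,
          near_sound hd hE hEA' hU' hEi' hUi' hdis' hnear,
          ih _ _ _ _ hEA' hU' hEi' hUi' hdis' hctl⟩
    · left
      refine ⟨1, rfl, ?_⟩
      exact ctl1_sound hd hE m _ _ _ _ _ _ hEA hU (rep_insert_out hV0 hy) hEi hUi hdis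
        (Set.finite_empty.insert _) hc1 h1

end

/-- one pair -/
theorem pair_of_chk {E : Set Cell} {w d : Cell} (hd : d ∈ dirs) (t lo hi : ℕ) (ht : t ≤ hi)
    (hE : ∀ s : ℤ, -(lo : ℤ) ≤ s → s ≤ hi → w + s • d ∉ E) (hc : chk t lo hi = true) :
    Near E ∅ {w, w + (t : ℤ) • d} ∧ Ctl E 6 2 ∅ {w, w + (t : ℤ) • d} ∅ := by
  rw [chk, Bool.and_eq_true] at hc
  have hE' : ∀ i, 4 ≤ i → i + 5 ≤ lo + hi + 9 → P w d (-(lo : ℤ)) i ∉ E := by
    intro i h4 h5
    exact hE _ (by omega) (by omega)
  have e0 : w = P w d (-(lo : ℤ)) (lo + 4) := by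
    unfold P
    have : ((lo + 4 : ℕ) : ℤ) + -(lo : ℤ) - 4 = 0 := by push_cast; ring
    rw [this, zero_smul, add_zero]
  have e1 : w + (t : ℤ) • d = P w d (-(lo : ℤ)) (lo + 4 + t) := by
    unfold P
    have : ((lo + 4 + t : ℕ) : ℤ) + -(lo : ℤ) - 4 = t := by push_cast; ring
    rw [this]
  have hset : ({w, w + (t : ℤ) • d} : Set Cell) =
      insert (P w d (-(lo : ℤ)) (lo + 4)) (insert (P w d (-(lo : ℤ)) (lo + 4 + t)) ∅) := by
    rw [← e0, ← e1, insert_empty_eq]
  have hU : Rep w d (-(lo : ℤ)) (lo + hi + 9) ({w, w + (t : ℤ) • d} : Set Cell)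
      ((1 <<< (lo + 4)) ||| (1 <<< (lo + 4 + t))) := by
    rw [hset, Nat.or_comm]
    have h1 := rep_insert hd (rep_empty (w := w) (d := d) (lo := -(lo : ℤ)) (n := lo + hi + 9)) (lo + 4 + t)
    rw [Nat.zero_or] at h1
    exact rep_insert hd h1 (lo + 4)
  have hUi : Inner w d (-(lo : ℤ)) (lo + hi + 9) ({w, w + (t : ℤ) • d} : Set Cell) := by
    rw [hset]
    refine inner_insert (inner_insert (fun c hc => hc.elim) (by omega) (by omega)) (by omega) (by omega)
  have hEi : Inner w d (-(lo : ℤ)) (lo + hi + 9) (∅ : Set Cell) := fun c hc => hc.elim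
  have e5 : lo + hi + 9 - 4 = lo + hi + 5 := by omega
  exact ⟨near_sound hd hE' rep_empty hU hEi hUi (fun c hc => hc.elim) (by rw [e5]; exact hc.1),
    ctl2_sound hd hE' 6 _ _ _ _ rep_empty hU hEi hUi (fun c hc => hc.elim) (by rw [e5]; exact hc.2)⟩

end Pool.Agent.H686.GomPair

namespace Pool.Agent.H184.Gomoku

open Pool.Agent.H686.GomPair in
theorem S_pair_proof : S_pair := by
  intro E w d hd t lo hi h hE
  rcases h with ⟨rfl, rfl, rfl⟩ | ⟨rfl, rfl, rfl⟩ | ⟨rfl, rfl, rfl⟩ | ⟨rfl, rfl, rfl⟩ | ⟨rfl, rfl, rfl⟩ |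
    ⟨rfl, rfl, rfl⟩ | ⟨rfl, rfl, rfl⟩ | ⟨rfl, rfl, rfl⟩
  · exact pair_of_chk hd 1 3 4 (by norm_num) hE chk1
  · exact pair_of_chk hd 2 4 4 (by norm_num) hE chk2
  · exact pair_of_chk hd 2 2 6 (by norm_num) hE chk3
  · exact pair_of_chk hd 3 4 5 (by norm_num) hE chk4
  · exact pair_of_chk hd 3 3 6 (by norm_num) hE chk5
  · exact pair_of_chk hd 3 2 7 (by norm_num) hE chk6
  · exact pair_of_chk hd 4 3 5 (by norm_num) hE chk7
  · exact pair_of_chk hd 4 1 7 (by norm_num) hE chk8

end Pool.Agent.H184.Gomoku
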