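import Pool.Agent.H85.AK.Stmt3

/-! `S_up`: few digit sums of algebraic numbers. -/

set_option autoImplicit false

namespace Pool.Agent.H686.AKUp

open Finset Module

attribute [local instance] Matrix.linftyOpNormedRing

theorem entry_le {r : ℕ} (A : Matrix (Fin r) (Fin r) ℚ) (i j : Fin r) : ‖A i j‖ ≤ ‖A‖ := by
  rw [Matrix.linfty_opNorm_def]
  have h1 : ‖A i j‖₊ ≤ ∑ j, ‖A i j‖₊ :=
    Finset.single_le_sum (f := fun j => ‖A i j‖₊) (fun _ _ => zero_le) (mem_univ j)
  have h2 : ∑ j, ‖A i j‖₊ ≤ univ.sup (fun i => ∑ j, ‖A i j‖₊) :=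
    Finset.le_sup (f := fun i => ∑ j, ‖A i j‖₊) (mem_univ i)
  exact_mod_cast h1.trans h2

section

variable {E : Type*} [CommRing E] [Algebra ℚ E] {r : ℕ} (b : Basis (Fin r) ℚ E)

/-- the elements which act by integral matrices -/
noncomputable def O : Subring E :=
  ((Int.castRingHom ℚ).mapMatrix (m := Fin r)).range.comap
    (Algebra.leftMulMatrix b : E →+* Matrix (Fin r) (Fin r) ℚ)

theorem mem_O {x : E} (hx : x ∈ O b) (i j : Fin r) :
    ∃ z : ℤ, Algebra.leftMulMatrix b x i j = z := by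
  obtain ⟨Z, hZ⟩ := hx
  refine ⟨Z i j, ?_⟩
  have := congrFun (congrFun hZ i) j
  exact this.symm

theorem of_O {x : E} (hx : ∀ i j, ∃ z : ℤ, Algebra.leftMulMatrix b x i j = z) : x ∈ O b := by
  choose Z hZ using hx
  refine ⟨Matrix.of Z, ?_⟩
  ext i j
  exact (hZ i j).symm

theorem count (T : Finset E) (X : ℕ) (hint : ∀ x ∈ T, x ∈ O b)
    (hX : ∀ x ∈ T, ‖Algebra.leftMulMatrix b x‖ ≤ X) : T.card ≤ (2 * X + 1) ^ (r * r) := by
  classical
  let φ : E → (Fin r → Fin r → ℤ) := fun x i j => ⌊Algebra.leftMulMatrix b x i j⌋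
  have h1 : T.card ≤ (Fintype.piFinset fun _ : Fin r => Fintype.piFinset fun _ : Fin r =>
      Icc (-(X : ℤ)) X).card := by
    apply Finset.card_le_card_of_injOn φ
    · intro x hx
      simp only [Finset.mem_coe, Fintype.mem_piFinset]
      intro i j
      obtain ⟨z, hz⟩ := mem_O b (hint x hx) i j
      have h2 : φ x i j = z := by
        simp only [φ]
        rw [hz, Int.floor_intCast]
      rw [h2]
      have h3 : ‖Algebra.leftMulMatrix b x i j‖ ≤ X := (entry_le _ i j).trans (hX x hx)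
      rw [hz] at h3
      have h4 : |(z : ℝ)| ≤ X := by
        have : ‖((z : ℤ) : ℚ)‖ = |(z : ℝ)| := by
          rw [← Rat.norm_cast_real]
          simp
        rw [← this]; exact h3
      have h5 : |z| ≤ (X : ℤ) := by exact_mod_cast h4
      exact Finset.mem_Icc.2 (abs_le.1 h5)
    · intro x hx y hy hxy
      apply Algebra.leftMulMatrix_injective b
      ext i j
      obtain ⟨z, hz⟩ := mem_O b (hint x hx) i j
      obtain ⟨w, hw⟩ := mem_O b (hint y hy) i j
      have h2 := congrFun (congrFun hxy i) j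
      simp only [φ] at h2
      rw [hz, hw, Int.floor_intCast, Int.floor_intCast] at h2
      rw [hz, hw, h2]
  refine h1.trans (le_of_eq ?_)
  rw [Fintype.card_piFinset]
  simp only [Fintype.card_piFinset, Int.card_Icc, prod_const, card_univ, Fintype.card_fin]
  rw [← pow_mul]
  congr 1
  omega

theorem norm_prod_pow {k : ℕ} (h : Fin k → E) (B : ℝ) (hB1 : 1 ≤ B)
    (h1 : ‖Algebra.leftMulMatrix b 1‖ ≤ B) (hB : ∀ i, ‖Algebra.leftMulMatrix b (h i)‖ ≤ B)
    (a : Fin k → ℕ) :
    ‖Algebra.leftMulMatrix b (∏ i, h i ^ a i)‖ ≤ B ^ (∑ i, a i + 1) := by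
  classical
  have hstep : ∀ (x y : E) (m : ℕ), ‖Algebra.leftMulMatrix b y‖ ≤ B →
      ‖Algebra.leftMulMatrix b (y ^ m * x)‖ ≤ B ^ m * ‖Algebra.leftMulMatrix b x‖ := by
    intro x y m hy
    induction m with
    | zero => simp
    | succ m ih =>
      rw [pow_succ', mul_assoc, map_mul, pow_succ', mul_assoc]
      exact (norm_mul_le _ _).trans (mul_le_mul hy ih (norm_nonneg _) (by linarith))
  have key : ∀ s : Finset (Fin k), ‖Algebra.leftMulMatrix b (∏ i ∈ s, h i ^ a i)‖ ≤
      B ^ (∑ i ∈ s, a i + 1) := by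
    intro s
    induction s using Finset.induction_on with
    | empty => simpa using h1
    | insert i s hi ih =>
      rw [Finset.prod_insert hi, Finset.sum_insert hi]
      refine (hstep _ _ _ (hB i)).trans ?_
      rw [add_assoc, pow_add B (a i)]
      exact mul_le_mul_of_nonneg_left ih (by positivity)
  exact key univ

end

theorem exists_den {ι : Type*} [Fintype ι] (x : ι → ℚ) :
    ∃ q : ℕ, 0 < q ∧ ∀ i, ∃ z : ℤ, (q : ℚ) * x i = z := by
  classical
  refine ⟨∏ i, (x i).den, Finset.prod_pos fun i _ => (x i).den_pos, fun i => ?_⟩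
  obtain ⟨c, hc⟩ := Finset.dvd_prod_of_mem (fun i => (x i).den) (mem_univ i)
  refine ⟨(x i).num * c, ?_⟩
  rw [hc]
  push_cast
  have h := Rat.mul_den_eq_num (x i)
  calc ((x i).den : ℚ) * c * x i = (x i * (x i).den) * c := by ring
    _ = _ := by rw [h]

theorem s_up : Pool.Agent.H85.AK.Stmt3.S_up := by
  classical
  intro k g hg
  let E : Subalgebra ℚ ℂ := Algebra.adjoin ℚ (Set.range g)
  have hfin : Module.Finite ℚ E := by
    have h := fg_adjoin_of_finite (R := ℚ) (s := Set.range g) (Set.finite_range g) (by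
      rintro x ⟨i, rfl⟩
      exact (hg i).isIntegral)
    exact Module.Finite.iff_fg.2 h
  let r := finrank ℚ E
  let b : Basis (Fin r) ℚ E := Module.finBasis ℚ E
  let g' : Fin k → E := fun i => ⟨g i, Algebra.subset_adjoin ⟨i, rfl⟩⟩
  obtain ⟨q, hq0, hq⟩ := exists_den (fun p : Fin k × Fin r × Fin r =>
    Algebra.leftMulMatrix b (g' p.1) p.2.1 p.2.2)
  let h : Fin k → E := fun i => q • g' i
  have hO : ∀ i, h i ∈ O b := by
    intro i
    apply of_O
    intro j l
    obtain ⟨z, hz⟩ := hq (i, j, l)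
    refine ⟨z, ?_⟩
    rw [← hz]
    simp only [h, map_nsmul]
    rw [Matrix.smul_apply, nsmul_eq_mul]
  obtain ⟨B, hB1, hB2, hB3⟩ : ∃ B : ℕ, 1 ≤ B ∧ ‖Algebra.leftMulMatrix b 1‖ ≤ B ∧
      ∀ i, ‖Algebra.leftMulMatrix b (h i)‖ ≤ B := by
    obtain ⟨B, hB⟩ := exists_nat_ge (1 + ‖Algebra.leftMulMatrix b 1‖ +
      ∑ i, ‖Algebra.leftMulMatrix b (h i)‖)
    have h1 : 0 ≤ ‖Algebra.leftMulMatrix b 1‖ := norm_nonneg _
    have h2 : 0 ≤ ∑ i, ‖Algebra.leftMulMatrix b (h i)‖ := sum_nonneg fun _ _ => norm_nonneg _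
    refine ⟨B, ?_, by linarith, fun i => ?_⟩
    · have : (1 : ℝ) ≤ B := by linarith
      exact_mod_cast this
    · have h3 := Finset.single_le_sum (f := fun i => ‖Algebra.leftMulMatrix b (h i)‖)
        (fun _ _ => norm_nonneg _) (mem_univ i)
      linarith
  have hBR : (1 : ℝ) ≤ B := by exact_mod_cast hB1
  have hqC : (q : ℂ) ≠ 0 := Nat.cast_ne_zero.2 hq0.ne'
  have hcount : ∀ D n : ℕ, 1 ≤ D → 1 ≤ n → (Pool.Agent.H85.AK.Stmt3.dg g D n).card ≤
      (2 * (n ^ k * (D * q ^ (k * n) * B ^ (k * n + 1))) + 1) ^ (r * r) := by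
    intro D n hD hn
    let Q : ((Fin k → Fin n) → Fin D) → E := fun d =>
      ∑ a : Fin k → Fin n, ((d a : ℕ) * q ^ (k * n - ∑ i, (a i : ℕ))) • ∏ i, h i ^ (a i : ℕ)
    have hsum : ∀ a : Fin k → Fin n, ∑ i, (a i : ℕ) ≤ k * n := by
      intro a
      calc ∑ i, (a i : ℕ) ≤ ∑ i : Fin k, n := Finset.sum_le_sum fun i _ => (a i).2.le
        _ = k * n := by simp
    have hQ : ∀ d, ((Q d : E) : ℂ) = (q : ℂ) ^ (k * n) *
        ∑ a : Fin k → Fin n, ((d a : ℕ) : ℂ) * ∏ i, g i ^ (a i : ℕ) := by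
      intro d
      have h1 : ((Q d : E) : ℂ) = E.val (Q d) := rfl
      rw [h1]
      simp only [Q]
      rw [map_sum, Finset.mul_sum]
      refine Finset.sum_congr rfl fun a _ => ?_
      rw [map_nsmul, map_prod]
      have h2 : ∏ i, E.val (h i ^ (a i : ℕ)) =
          (q : ℂ) ^ (∑ i, (a i : ℕ)) * ∏ i, g i ^ (a i : ℕ) := by
        rw [← Finset.prod_pow_eq_pow_sum, ← Finset.prod_mul_distrib]
        refine Finset.prod_congr rfl fun i _ => ?_
        rw [map_pow, ← mul_pow]
        congr 1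
        simp only [h]
        rw [map_nsmul, nsmul_eq_mul]
        rfl
      rw [h2, nsmul_eq_mul]
      push_cast
      have h3 : (q : ℂ) ^ (k * n) = (q : ℂ) ^ (k * n - ∑ i, (a i : ℕ)) *
          (q : ℂ) ^ (∑ i, (a i : ℕ)) := by
        rw [← pow_add, Nat.sub_add_cancel (hsum a)]
      rw [h3]
      ring
    have hcard : (Pool.Agent.H85.AK.Stmt3.dg g D n).card ≤
        ((univ : Finset ((Fin k → Fin n) → Fin D)).image Q).card := by
      apply Finset.card_le_card_of_surjOn (fun z : E => (z : ℂ) / (q : ℂ) ^ (k * n))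
      intro w hw
      obtain ⟨d, -, hd⟩ := Finset.mem_image.1 (Finset.mem_coe.1 hw)
      refine ⟨Q d, Finset.mem_coe.2 (Finset.mem_image_of_mem Q (Finset.mem_univ d)), ?_⟩
      simp only
      rw [hQ d, mul_div_cancel_left₀ _ (pow_ne_zero _ hqC), hd]
    refine hcard.trans (count b _ _ ?_ ?_)
    · intro x hx
      obtain ⟨d, -, rfl⟩ := Finset.mem_image.1 hx
      refine Subring.sum_mem _ fun a _ => nsmul_mem (Subring.prod_mem _ fun i _ => ?_) _
      exact pow_mem (hO i) _
    · intro x hx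
      obtain ⟨d, -, rfl⟩ := Finset.mem_image.1 hx
      simp only [Q]
      rw [map_sum]
      refine (norm_sum_le _ _).trans ?_
      have hterm : ∀ a ∈ (univ : Finset (Fin k → Fin n)),
          ‖Algebra.leftMulMatrix b (((d a : ℕ) * q ^ (k * n - ∑ i, (a i : ℕ))) •
            ∏ i, h i ^ (a i : ℕ))‖ ≤ (D * q ^ (k * n) * B ^ (k * n + 1) : ℝ) := by
        intro a _
        rw [map_nsmul]
        refine norm_nsmul_le.trans ?_
        refine mul_le_mul ?_ ?_ (norm_nonneg _) (by positivity)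
        · have h1 : (d a : ℕ) * q ^ (k * n - ∑ i, (a i : ℕ)) ≤ D * q ^ (k * n) :=
            Nat.mul_le_mul (d a).2.le (Nat.pow_le_pow_right hq0 (Nat.sub_le _ _))
          exact_mod_cast h1
        · refine (norm_prod_pow b h B hBR hB2 hB3 fun i => (a i : ℕ)).trans ?_
          exact pow_le_pow_right₀ hBR (Nat.succ_le_succ (hsum a))
      refine (Finset.sum_le_card_nsmul _ _ _ hterm).trans ?_
      rw [card_univ, Fintype.card_fun, Fintype.card_fin, Fintype.card_fin, nsmul_eq_mul]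
      push_cast
      exact le_rfl
  have hqR : (1 : ℝ) ≤ q := by exact_mod_cast hq0
  have hlq : 0 ≤ Real.log q := Real.log_nonneg hqR
  have hlB : 0 ≤ Real.log B := Real.log_nonneg hBR
  have hl3 : 0 ≤ Real.log 3 := Real.log_nonneg (by norm_num)
  set C1 : ℝ := Real.log 3 + k + k * Real.log q + (k + 1) * Real.log B + 1 with hC1
  have hC1p : 1 ≤ C1 := by
    have : 0 ≤ Real.log 3 + k + k * Real.log q + (k + 1) * Real.log B := by positivity
    linarith
  refine ⟨(r * r + 1) * C1, by positivity, fun D n hD hn => ?_⟩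
  have hDR : (1 : ℝ) ≤ D := by exact_mod_cast hD
  have hnR : (1 : ℝ) ≤ n := by exact_mod_cast hn
  have hlD : 0 ≤ Real.log D := Real.log_nonneg hDR
  have hrhs : 0 ≤ (n : ℝ) + Real.log D := by linarith
  rcases Nat.eq_zero_or_pos (Pool.Agent.H85.AK.Stmt3.dg g D n).card with h0 | h0
  · rw [h0, Nat.cast_zero, Real.log_zero]
    positivity
  have h1 : ((Pool.Agent.H85.AK.Stmt3.dg g D n).card : ℝ) ≤
      (3 * ((n : ℝ) ^ k * (D * q ^ (k * n) * B ^ (k * n + 1)))) ^ (r * r) := by
    have h2 : ((Pool.Agent.H85.AK.Stmt3.dg g D n).card : ℝ) ≤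
      (((2 * (n ^ k * (D * q ^ (k * n) * B ^ (k * n + 1))) + 1) ^ (r * r) : ℕ) : ℝ) := by
      exact_mod_cast hcount D n hD hn
    refine h2.trans ?_
    push_cast
    refine pow_le_pow_left₀ (by positivity) ?_ _
    have h3 : (1 : ℝ) ≤ (n : ℝ) ^ k * (D * q ^ (k * n) * B ^ (k * n + 1)) := by
      have h4 : (1 : ℝ) ≤ (n : ℝ) ^ k := one_le_pow₀ hnR
      have h5 : (1 : ℝ) ≤ (q : ℝ) ^ (k * n) := one_le_pow₀ hqR
      have h6 : (1 : ℝ) ≤ (B : ℝ) ^ (k * n + 1) := one_le_pow₀ hBR
      exact one_le_mul_of_one_le_of_one_le h4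
        (one_le_mul_of_one_le_of_one_le (one_le_mul_of_one_le_of_one_le hDR h5) h6)
    linarith
  have h2 : Real.log (3 * ((n : ℝ) ^ k * (D * q ^ (k * n) * B ^ (k * n + 1)))) =
      Real.log 3 + (k * Real.log n + (Real.log D + (k * n : ℕ) * Real.log q +
        (k * n + 1 : ℕ) * Real.log B)) := by
    have hn0 : (n : ℝ) ≠ 0 := by positivity
    have hD0 : (D : ℝ) ≠ 0 := by positivity
    have hq0' : (q : ℝ) ≠ 0 := by positivity
    have hB0' : (B : ℝ) ≠ 0 := by positivity
    rw [Real.log_mul (by norm_num) (by positivity), Real.log_mul (by positivity) (by positivity),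
      Real.log_mul (by positivity) (by positivity), Real.log_mul (by positivity) (by positivity),
      Real.log_pow, Real.log_pow, Real.log_pow]
  have h3 : Real.log (3 * ((n : ℝ) ^ k * (D * q ^ (k * n) * B ^ (k * n + 1)))) ≤
      C1 * (n + Real.log D) := by
    rw [h2]
    have h4 : Real.log n ≤ n := (Real.log_le_sub_one_of_pos (by linarith)).trans (by linarith)
    have h5 : (k : ℝ) * Real.log n ≤ k * n := mul_le_mul_of_nonneg_left h4 (by positivity)
    push_cast
    have h6 : Real.log 3 ≤ Real.log 3 * n := le_mul_of_one_le_right hl3 hnR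
    have h7 : Real.log B ≤ Real.log B * n := le_mul_of_one_le_right hlB hnR
    have h8 : Real.log D ≤ C1 * Real.log D := le_mul_of_one_le_left hlD hC1p
    have h9 : Real.log 3 + (k * Real.log n + (Real.log D + k * n * Real.log q +
        (k * n + 1) * Real.log B)) ≤
        (Real.log 3 + k + k * Real.log q + (k + 1) * Real.log B) * n + C1 * Real.log D := by
      nlinarith
    refine h9.trans ?_
    rw [hC1]
    nlinarith
  calc Real.log ((Pool.Agent.H85.AK.Stmt3.dg g D n).card : ℝ)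
      ≤ Real.log ((3 * ((n : ℝ) ^ k * (D * q ^ (k * n) * B ^ (k * n + 1)))) ^ (r * r)) :=
        Real.log_le_log (by exact_mod_cast h0) h1
    _ = (r * r : ℕ) * Real.log (3 * ((n : ℝ) ^ k * (D * q ^ (k * n) * B ^ (k * n + 1)))) :=
        Real.log_pow _ _
    _ ≤ (r * r : ℕ) * (C1 * (n + Real.log D)) := mul_le_mul_of_nonneg_left h3 (by positivity)
    _ ≤ (r * r + 1) * C1 * (n + Real.log D) := by
        push_cast
        have : 0 ≤ C1 * (n + Real.log D) := by positivity
        nlinarith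

end Pool.Agent.H686.AKUp
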