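import Pool.Agent.H867.FT.Gen11

/-!
# Task RZB of project FT (helper867): Nagata's ring, F-finiteness (helper686)
-/

set_option autoImplicit false

namespace Pool.Agent.H686.FT867RZB

open Polynomial

theorem gens_of_finite {R S : Type} [CommRing R] [CommRing S] (f : R →+* S) (h : f.Finite) :
    ∃ (n : ℕ) (r : Fin n → S), ∀ y : S, ∃ c : Fin n → R, y = ∑ a, f (c a) * r a := by
  letI := f.toAlgebra
  haveI : Module.Finite R S := h
  obtain ⟨n, r, hr⟩ := Module.Finite.exists_fin (R := R) (M := S)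
  refine ⟨n, r, fun y => ?_⟩
  have hy : y ∈ Submodule.span R (Set.range r) := by
    rw [hr]
    trivial
  obtain ⟨c, hc⟩ := (Submodule.mem_span_range_iff_exists_fun R).1 hy
  refine ⟨c, ?_⟩
  rw [← hc]
  exact Finset.sum_congr rfl fun a _ => Algebra.smul_def _ _

theorem finite_of_gens {R S : Type} [CommRing R] [CommRing S] (f : R →+* S) {ι : Type} [Fintype ι]
    (r : ι → S) (h : ∀ y : S, ∃ c : ι → R, y = ∑ a, f (c a) * r a) : f.Finite := by
  classical
  letI := f.toAlgebra
  have hM : Module.Finite R S := by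
    refine ⟨⟨Finset.univ.image r, ?_⟩⟩
    rw [eq_top_iff]
    rintro y -
    obtain ⟨c, rfl⟩ := h y
    refine Submodule.sum_mem _ fun a _ => ?_
    have e : f (c a) * r a = c a • r a := (Algebra.smul_def _ _).symm
    rw [e]
    exact Submodule.smul_mem _ _ (Submodule.subset_span (by simp))
  exact hM

theorem poly_gens {R : Type} [CommRing R] (p : ℕ) [Fact p.Prime] [CharP R p] {n : ℕ}
    (r : Fin n → R) (hr : ∀ y : R, ∃ c : Fin n → R, y = ∑ a, c a ^ p * r a) (f : R[X]) :
    ∃ g : Fin n → Fin p → R[X],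
      f = ∑ a, ∑ i, g a i ^ p * (Polynomial.C (r a) * X ^ (i : ℕ)) := by
  induction f using Polynomial.induction_on' with
  | add f f' h h' =>
    obtain ⟨g, hg⟩ := h
    obtain ⟨g', hg'⟩ := h'
    refine ⟨fun a i => g a i + g' a i, ?_⟩
    have e : ∑ a, ∑ i, (g a i + g' a i) ^ p * (Polynomial.C (r a) * X ^ (i : ℕ)) =
        (∑ a, ∑ i, g a i ^ p * (Polynomial.C (r a) * X ^ (i : ℕ))) +
        ∑ a, ∑ i, g' a i ^ p * (Polynomial.C (r a) * X ^ (i : ℕ)) := by
      rw [← Finset.sum_add_distrib]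
      refine Finset.sum_congr rfl fun a _ => ?_
      rw [← Finset.sum_add_distrib]
      refine Finset.sum_congr rfl fun i _ => ?_
      rw [add_pow_char, add_mul]
    rw [e, ← hg, ← hg']
  | monomial m y =>
    obtain ⟨c, hc⟩ := hr y
    have hp : 0 < p := (Fact.out : p.Prime).pos
    let i0 : Fin p := ⟨m % p, Nat.mod_lt _ hp⟩
    refine ⟨fun a i => if i = i0 then Polynomial.C (c a) * X ^ (m / p) else 0, ?_⟩
    have e : ∀ a, ∑ i : Fin p, (if i = i0 then Polynomial.C (c a) * X ^ (m / p) else 0) ^ p *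
        (Polynomial.C (r a) * X ^ (i : ℕ)) = Polynomial.C (c a ^ p * r a) * X ^ m := by
      intro a
      rw [Finset.sum_eq_single i0]
      · rw [if_pos rfl, mul_pow, ← C_pow, ← pow_mul]
        have e2 : (X ^ (m / p * p) * X ^ (i0 : ℕ) : R[X]) = X ^ m := by
          rw [← pow_add]
          congr 1
          exact Nat.div_add_mod' m p
        calc Polynomial.C (c a ^ p) * X ^ (m / p * p) * (Polynomial.C (r a) * X ^ (i0 : ℕ))
            = Polynomial.C (c a ^ p) * Polynomial.C (r a) * (X ^ (m / p * p) * X ^ (i0 : ℕ)) := by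
              ring
          _ = Polynomial.C (c a ^ p * r a) * X ^ m := by rw [e2, C_mul]
      · intro i _ hi
        rw [if_neg hi, zero_pow hp.ne', zero_mul]
      · intro h
        exact absurd (Finset.mem_univ _) h
    rw [Finset.sum_congr rfl fun a _ => e a, ← Finset.sum_mul, ← map_sum, ← hc,
      C_mul_X_pow_eq_monomial]

theorem rzb : Pool.Agent.H867.FT.S_RZB := by
  intro p _ R A _ _ _ _ _ _ h hloc hfin
  obtain ⟨n, r, hr⟩ := gens_of_finite (frobenius R p) hfin
  have hr' : ∀ y : R, ∃ c : Fin n → R, y = ∑ a, c a ^ p * r a := by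
    intro y
    obtain ⟨c, hc⟩ := hr y
    exact ⟨c, hc⟩
  haveI := h
  have key : ∀ x : A, ∃ b : Fin n → Fin p → A,
      x = ∑ a, ∑ i, b a i ^ p * (algebraMap R[X] A (Polynomial.C (r a) * X ^ (i : ℕ))) := by
    intro x
    obtain ⟨⟨f, s⟩, hfs⟩ := IsLocalization.surj
      ((IsLocalRing.maximalIdeal R).map (Polynomial.C : R →+* R[X])).primeCompl x
    obtain ⟨u, hu⟩ := IsLocalization.map_units A s
    simp only at hfs
    obtain ⟨g, hg⟩ := poly_gens p r hr' ((s : R[X]) ^ (p - 1) * f)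
    refine ⟨fun a i => algebraMap R[X] A (g a i) * ((u⁻¹ : Aˣ) : A), ?_⟩
    have e1 : ∑ a, ∑ i, (algebraMap R[X] A (g a i) * ((u⁻¹ : Aˣ) : A)) ^ p *
        (algebraMap R[X] A (Polynomial.C (r a) * X ^ (i : ℕ))) =
        ((u⁻¹ : Aˣ) : A) ^ p * algebraMap R[X] A ((s : R[X]) ^ (p - 1) * f) := by
      rw [hg, map_sum, Finset.mul_sum]
      refine Finset.sum_congr rfl fun a _ => ?_
      rw [map_sum, Finset.mul_sum]
      refine Finset.sum_congr rfl fun i _ => ?_
      simp only [map_mul, map_pow, mul_pow]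
      ring
    rw [e1, map_mul, map_pow, ← hfs, ← hu]
    have hp : 0 < p := (Fact.out : p.Prime).pos
    have e2 : ((u⁻¹ : Aˣ) : A) ^ p * ((u : A) ^ (p - 1) * (x * (u : A))) =
        x * (((u⁻¹ : Aˣ) : A) ^ p * ((u : A) ^ (p - 1) * (u : A))) := by ring
    rw [e2, ← pow_succ, Nat.sub_add_cancel hp, ← mul_pow, Units.inv_mul, one_pow, mul_one]
  refine ⟨?_, fun x => ?_⟩
  · refine finite_of_gens (ι := Fin n × Fin p) (frobenius A p)
      (fun q => algebraMap R[X] A (Polynomial.C (r q.1) * X ^ (q.2 : ℕ))) fun y => ?_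
    obtain ⟨b, hb⟩ := key y
    refine ⟨fun q => b q.1 q.2, ?_⟩
    rw [Fintype.sum_prod_type]
    exact hb
  · obtain ⟨b, hb⟩ := key x
    exact ⟨n, b, r, hb⟩

end Pool.Agent.H686.FT867RZB
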