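import Pool.Agent.H666.LRC.Defs5

set_option autoImplicit false

/-! V1: the mass of `[0, h]` (task for helper666, by helper686) -/

namespace Pool.Agent.H686.LRC

open Filter Topology MeasureTheory Pool.Agent.H666.LRC

theorem log_half {y : ℝ} (hy : 0 < y) : Real.log y ≤ y / 2 := by
  have h1 : Real.log y = Real.log (y / 2) + Real.log 2 := by
    rw [← Real.log_mul (by positivity) (by norm_num)]
    congr 1
    ring
  have h2 := Real.log_le_sub_one_of_pos (show (0 : ℝ) < y / 2 by positivity)
  have h3 := Real.log_le_sub_one_of_pos (show (0 : ℝ) < 2 by norm_num)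
  linarith

theorem log_cube {y : ℝ} (hy : 1 ≤ y) : Real.log y ^ 3 ≤ 27 * y := by
  have h0 : 0 ≤ Real.log y := Real.log_nonneg hy
  have h1 := Real.log_le_rpow_div (show (0 : ℝ) ≤ y by linarith) (show (0 : ℝ) < 1 / 3 by norm_num)
  have h2 : Real.log y ^ 3 ≤ (y ^ (1 / 3 : ℝ) / (1 / 3)) ^ 3 := pow_le_pow_left₀ h0 h1 3
  have h3 : (y ^ (1 / 3 : ℝ)) ^ 3 = y := by
    rw [← Real.rpow_natCast, ← Real.rpow_mul (by linarith)]
    norm_num
  calc Real.log y ^ 3 ≤ (y ^ (1 / 3 : ℝ) / (1 / 3)) ^ 3 := h2
    _ = 27 * (y ^ (1 / 3 : ℝ)) ^ 3 := by ring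
    _ = 27 * y := by rw [h3]

theorem V1 : S_mass := by
  intro P hP
  obtain ⟨hc, h0, hG, K2, hK2, hE2⟩ := hP
  obtain ⟨K1, hK1, hE1⟩ := hG (fun t => 2 - 2 * t) (by fun_prop) (by norm_num)
  refine ⟨216 * K1 + 8 + 16 * K2, by positivity, ?_⟩
  intro h hh hh2
  have hint : ∀ N a b, IntervalIntegrable (P N) volume a b := fun N a b =>
    (hc N).intervalIntegrable a b
  rcases le_or_gt h (1 / 4) with h4 | h4
  · have hy : 1 ≤ 1 / h := by
      rw [le_div_iff₀ hh]
      linarith
    have e1 : (0 : ℝ) + 2 / (2 * h) = 1 / h := by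
      field_simp
      ring
    have hcond : 2 * h * Real.log (0 + 2 / (2 * h)) ≤ 1 := by
      rw [e1]
      have := log_half (show (0 : ℝ) < 1 / h by positivity)
      calc 2 * h * Real.log (1 / h) ≤ 2 * h * (1 / h / 2) :=
            mul_le_mul_of_nonneg_left this (by positivity)
        _ = 1 := by field_simp
    have hl3 := log_cube hy
    filter_upwards [hE1 (2 * h) 0 (by positivity) (by linarith) le_rfl hcond] with N hN
    rw [e1] at hN
    have e2 : (∫ θ in (0 : ℝ)..(2 * h), (2 - 2 * (θ / (2 * h))) *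
        Real.cos (2 * Real.pi * 0 * θ) * (P N θ - θ)) =
        (∫ θ in (0 : ℝ)..(2 * h), (2 - θ / h) * P N θ) -
          ∫ θ in (0 : ℝ)..(2 * h), (2 - θ / h) * θ := by
      rw [← intervalIntegral.integral_sub]
      · apply intervalIntegral.integral_congr
        intro θ _
        show (2 - 2 * (θ / (2 * h))) * Real.cos (2 * Real.pi * 0 * θ) * (P N θ - θ) =
          (2 - θ / h) * P N θ - (2 - θ / h) * θ
        have e3 : 2 * Real.pi * 0 * θ = 0 := by ring
        rw [e3, Real.cos_zero]
        field_simp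
      · apply Continuous.intervalIntegrable
        have := hc N
        fun_prop
      · apply Continuous.intervalIntegrable
        fun_prop
    have hN' := (le_abs_self _).trans hN
    rw [e2] at hN'
    have e4 : ∫ θ in (0 : ℝ)..(2 * h), (2 - θ / h) * θ ≤ 8 * h ^ 2 := by
      calc ∫ θ in (0 : ℝ)..(2 * h), (2 - θ / h) * θ ≤ ∫ _θ in (0 : ℝ)..(2 * h), 4 * h := by
            apply intervalIntegral.integral_mono_on (by positivity)
            · apply Continuous.intervalIntegrable
              fun_prop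
            · exact intervalIntegrable_const
            · intro θ hθ
              have a1 : 0 ≤ θ / h := div_nonneg hθ.1 hh.le
              have a2 := hθ.1
              have a3 := hθ.2
              nlinarith [mul_nonneg a1 a2]
        _ = 8 * h ^ 2 := by
            rw [intervalIntegral.integral_const, smul_eq_mul]
            ring
    have e5 : ∫ θ in (0 : ℝ)..h, P N θ ≤ ∫ θ in (0 : ℝ)..(2 * h), (2 - θ / h) * P N θ := by
      have hi : ∀ a b, IntervalIntegrable (fun θ => (2 - θ / h) * P N θ) volume a b := by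
        intro a b
        apply Continuous.intervalIntegrable
        have := hc N
        fun_prop
      rw [← intervalIntegral.integral_add_adjacent_intervals (hi 0 h) (hi h (2 * h))]
      have b1 : ∫ θ in (0 : ℝ)..h, P N θ ≤ ∫ θ in (0 : ℝ)..h, (2 - θ / h) * P N θ := by
        apply intervalIntegral.integral_mono_on hh.le (hint N 0 h) (hi 0 h)
        intro θ hθ
        have a1 : θ / h ≤ 1 := (div_le_one hh).2 hθ.2
        nlinarith [h0 N θ]
      have b2 : 0 ≤ ∫ θ in h..(2 * h), (2 - θ / h) * P N θ := by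
        apply intervalIntegral.integral_nonneg (by linarith)
        intro θ hθ
        have a1 : θ / h ≤ 2 := (div_le_iff₀ hh).2 hθ.2
        exact mul_nonneg (by linarith) (h0 N θ)
      linarith
    have e6 : K1 * ((2 * h) ^ 3 * Real.log (1 / h) ^ 3) ≤ 216 * K1 * h ^ 2 := by
      have c1 : h * Real.log (1 / h) ^ 3 ≤ 27 := by
        calc h * Real.log (1 / h) ^ 3 ≤ h * (27 * (1 / h)) :=
              mul_le_mul_of_nonneg_left hl3 hh.le
          _ = 27 := by field_simp
      calc K1 * ((2 * h) ^ 3 * Real.log (1 / h) ^ 3) =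
            K1 * (8 * h ^ 2) * (h * Real.log (1 / h) ^ 3) := by ring
        _ ≤ K1 * (8 * h ^ 2) * 27 := mul_le_mul_of_nonneg_left c1 (by positivity)
        _ = 216 * K1 * h ^ 2 := by ring
    have e7 : 0 ≤ K2 * h ^ 2 := by positivity
    nlinarith
  · filter_upwards [hE2] with N hN
    have e1 : ∫ θ in (0 : ℝ)..h, P N θ ≤ ∫ θ in (0 : ℝ)..(1 / 2), P N θ := by
      rw [← intervalIntegral.integral_add_adjacent_intervals (hint N 0 h) (hint N h (1 / 2))]
      have := intervalIntegral.integral_nonneg (μ := volume) hh2 (fun θ _ => h0 N θ)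
      linarith
    have e2 : K2 ≤ 16 * K2 * h ^ 2 := by
      have : 1 ≤ 16 * h ^ 2 := by nlinarith
      nlinarith
    have e3 : 0 ≤ (216 * K1 + 8) * h ^ 2 := by positivity
    nlinarith

end Pool.Agent.H686.LRC
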