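import Pool.Agent.H724.ST.Stm

set_option autoImplicit false

namespace Pool.Agent.H686.STDEC

open Pool.Agent.H724.ST

theorem absorb (C : Chk) (v : List Bool) : ∀ s : ℕ × ℕ × ℕ × ℕ, s.1 = 3 →
    (v.foldl (scs C) s).1 = 3 := by
  induction v with
  | nil => intro s h; exact h
  | cons b v ih =>
    intro s h
    rw [List.foldl_cons]
    apply ih
    unfold scs
    simp [h]

theorem scs0t (C : Chk) (al l g : ℕ) : scs C (0, al, l, g) true = (1, al, 0, 0) := rfl

theorem scs0f (C : Chk) (al l g : ℕ) :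
    scs C (0, al, l, g) false = if al < C.E then (0, al + 1, 0, 0) else (3, 0, 0, 0) := rfl

theorem scs1t (C : Chk) (al l g : ℕ) :
    scs C (1, al, l, g) true = if good C g = true then (2, al, g, 0) else (3, 0, 0, 0) := rfl

theorem scs1f (C : Chk) (al l g : ℕ) :
    scs C (1, al, l, g) false = if g < C.E then (1, al, 0, g + 1) else (3, 0, 0, 0) := rfl

theorem scs2t (C : Chk) (al l g : ℕ) :
    scs C (2, al, l, g) true = if good C g = true ∧
          C.l2 (l / (C.N + 1) - 1) (g / (C.N + 1) - 1) = true then (2, al, g, 0)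
      else (3, 0, 0, 0) := rfl

theorem scs2f (C : Chk) (al l g : ℕ) :
    scs C (2, al, l, g) false = if g < C.E then (2, al, l, g + 1) else (3, 0, 0, 0) := rfl

/-- first run of a word -/
theorem split_first : ∀ u : List Bool, 1 ≤ u.count true → ∃ al z, u = rn al ++ true :: z ∧
    u.count true = z.count true + 1
  | [], h => by simp at h
  | true :: u, _ => ⟨0, u, rfl, by simp⟩
  | false :: u, h => by
    have h' : 1 ≤ u.count true := by simpa using h
    obtain ⟨al, z, h1, h2⟩ := split_first u h'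
    refine ⟨al + 1, z, ?_, ?_⟩
    · rw [h1]; rfl
    · simpa using h2

/-- reading a run in the first tape part -/
theorem run0 (C : Chk) (w : List Bool) (e : ℕ) : ∀ al, ((rn e ++ w).foldl (scs C) (0, al, 0, 0)).1 ≠ 3 →
    (rn e ++ w).foldl (scs C) (0, al, 0, 0) = w.foldl (scs C) (0, al + e, 0, 0) ∧
      (al ≤ C.E → al + e ≤ C.E) := by
  induction e with
  | zero => intro al _; exact ⟨rfl, fun h => h⟩
  | succ e ih =>
    intro al h
    have e1 : rn (e + 1) ++ w = false :: (rn e ++ w) := rfl
    rw [e1, List.foldl_cons, scs0f] at h ⊢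
    split_ifs at h ⊢ with h1
    · obtain ⟨h2, h3⟩ := ih (al + 1) h
      refine ⟨by rw [h2, show al + 1 + e = al + (e + 1) by omega], fun _ => ?_⟩
      have := h3 (by omega)
      omega
    · exact absurd (absorb C _ _ rfl) h

/-- reading a run inside -/
theorem run1 (C : Chk) (w : List Bool) (t al : ℕ) (e : ℕ) : ∀ l g,
    (t = 1 ∧ l = 0 ∨ t = 2) →
    ((rn e ++ w).foldl (scs C) (t, al, l, g)).1 ≠ 3 →
    (rn e ++ w).foldl (scs C) (t, al, l, g) = w.foldl (scs C) (t, al, l, g + e) := by
  induction e with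
  | zero => intro l g _ _; rfl
  | succ e ih =>
    intro l g ht h
    have e1 : rn (e + 1) ++ w = false :: (rn e ++ w) := rfl
    rw [e1, List.foldl_cons] at h ⊢
    rcases ht with ⟨rfl, rfl⟩ | rfl
    · rw [scs1f] at h ⊢
      split_ifs at h ⊢ with h1
      · rw [ih 0 (g + 1) (Or.inl ⟨rfl, rfl⟩) h, show g + 1 + e = g + (e + 1) by omega]
      · exact absurd (absorb C _ _ rfl) h
    · rw [scs2f] at h ⊢
      split_ifs at h ⊢ with h1
      · rw [ih l (g + 1) (Or.inr rfl) h, show g + 1 + e = g + (e + 1) by omega]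
      · exact absurd (absorb C _ _ rfl) h

theorem good_letter (C : Chk) (e : ℕ) (h : good C e = true) :
    ∃ x, x < C.p ∧ C.l1 x = true ∧ e = (x + 1) * (C.N + 1) ∧ e / (C.N + 1) - 1 = x := by
  unfold good at h
  simp only [Bool.and_eq_true, decide_eq_true_eq] at h
  obtain ⟨⟨⟨h1, h2⟩, h3⟩, h4⟩ := h
  obtain ⟨k, hk⟩ := Nat.dvd_of_mod_eq_zero h1
  have hM : 0 < C.N + 1 := Nat.succ_pos _
  have e1 : e / (C.N + 1) = k := by rw [hk]; exact Nat.mul_div_cancel_left k hM
  rw [e1] at h4 ⊢
  have hk0 : 0 < k := by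
    rcases Nat.eq_zero_or_pos k with h0 | h0
    · rw [hk, h0] at h2; simp at h2
    · exact h0
  have hkp : k ≤ C.p := by
    unfold Chk.E at h3
    rw [hk, mul_comm C.p] at h3
    exact Nat.le_of_mul_le_mul_left h3 hM
  refine ⟨k - 1, by omega, h4, ?_, rfl⟩
  rw [hk, mul_comm, Nat.sub_add_cancel hk0]

theorem blks_front (C : Chk) (x : ℕ → ℕ) (T : ℕ) :
    blks C x (T + 1) = blk C (x 0) ++ blks C (fun i => x (i + 1)) T := by
  induction T with
  | zero => simp [blks]
  | succ T ih =>
    rw [show blks C x (T + 1 + 1) = blks C x (T + 1) ++ blk C (x (T + 1)) from rfl, ih,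
      show blks C (fun i => x (i + 1)) (T + 1) = blks C (fun i => x (i + 1)) T ++ blk C (x (T + 1))
      from rfl, List.append_assoc]

theorem tail_shape (C : Chk) (al : ℕ) : ∀ (T : ℕ) (w : List Bool) (t l : ℕ),
    (t = 1 ∧ l = 0 ∨ t = 2) → (w.foldl (scs C) (t, al, l, 0)).1 ≠ 3 → T + 1 ≤ w.count true →
    ∃ (x : ℕ → ℕ) (z : List Bool), w = false :: (blks C x T ++ z) ∧ Cons C x T ∧
      (t = 2 → 1 ≤ T → C.l2 (l / (C.N + 1) - 1) (x 0) = true) := by
  intro T
  induction T with
  | zero =>
    intro w t l ht hok hc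
    obtain ⟨e, w', rfl, hcw⟩ := split_first w (by omega)
    rw [run1 C _ t al e l 0 ht hok, List.foldl_cons] at hok
    have hg : good C (0 + e) = true := by
      rcases ht with ⟨rfl, rfl⟩ | rfl
      · rw [scs1t] at hok
        split_ifs at hok with h1
        · exact h1
        · exact absurd (absorb C _ _ rfl) hok
      · rw [scs2t] at hok
        split_ifs at hok with h1
        · exact h1.1
        · exact absurd (absorb C _ _ rfl) hok
    rw [zero_add] at hg
    obtain ⟨x0, h1, h2, h3, h4⟩ := good_letter C e hg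
    have he : 0 < e := by rw [h3]; positivity
    obtain ⟨e', rfl⟩ : ∃ e', e = e' + 1 := ⟨e - 1, by omega⟩
    refine ⟨fun _ => 0, rn e' ++ true :: w', rfl, ⟨fun i hi => absurd hi (Nat.not_lt_zero _),
      fun i hi => absurd hi (Nat.not_lt_zero _)⟩, fun _ h => absurd h (by omega)⟩
  | succ T ih =>
    intro w t l ht hok hc
    obtain ⟨e, w', rfl, hcw⟩ := split_first w (by omega)
    rw [run1 C _ t al e l 0 ht hok, List.foldl_cons] at hok
    rw [zero_add] at hok
    have hg : good C e = true ∧ (w'.foldl (scs C) (2, al, e, 0)).1 ≠ 3 ∧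
        (t = 2 → C.l2 (l / (C.N + 1) - 1) (e / (C.N + 1) - 1) = true) := by
      rcases ht with ⟨rfl, rfl⟩ | rfl
      · rw [scs1t] at hok
        split_ifs at hok with h1
        · exact ⟨h1, hok, fun h => absurd h (by decide)⟩
        · exact absurd (absorb C _ _ rfl) hok
      · rw [scs2t] at hok
        split_ifs at hok with h1
        · exact ⟨h1.1, hok, fun _ => h1.2⟩
        · exact absurd (absorb C _ _ rfl) hok
    obtain ⟨hg, hok', hl⟩ := hg
    obtain ⟨x0, h1, h2, h3, h4⟩ := good_letter C e hg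
    rw [h4] at hl
    obtain ⟨x', z, h5, h6, h7⟩ := ih w' 2 e (Or.inr rfl) hok' (by omega)
    have he : 0 < e := by rw [h3]; positivity
    refine ⟨fun i => if i = 0 then x0 else x' (i - 1), z, ?_, ⟨?_, ?_⟩, ?_⟩
    · rw [blks_front]
      simp only [if_true, Nat.add_sub_cancel, Nat.succ_ne_zero, if_false]
      have e1 : (fun i => x' i) = x' := rfl
      rw [e1, h5]
      unfold blk
      rw [← h3]
      obtain ⟨e', rfl⟩ : ∃ e', e = e' + 1 := ⟨e - 1, by omega⟩
      rw [Nat.add_sub_cancel]
      show false :: (rn e' ++ true :: false :: (blks C x' T ++ z)) = _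
      simp
    · intro i hi
      by_cases h0 : i = 0
      · subst h0
        simp only [if_true]
        exact ⟨h1, h2⟩
      · simp only [h0, if_false]
        exact h6.1 _ (by omega)
    · intro i hi
      by_cases h0 : i = 0
      · subst h0
        simp only [if_true, Nat.succ_ne_zero, if_false, Nat.add_sub_cancel]
        have := h7 rfl (by omega)
        rw [h4] at this
        simpa using this
      · simp only [h0, if_false, Nat.succ_ne_zero, Nat.add_sub_cancel]
        have := h6.2 (i - 1) (by omega)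
        rwa [Nat.sub_add_cancel (by omega)] at this
    · intro h _
      simp only [if_true]
      exact hl h

theorem dec_ : S_DEC := by
  intro C T u hok hc
  obtain ⟨al, w, rfl, hcw⟩ := split_first u (by omega)
  unfold OK sc at hok
  obtain ⟨h1, h2⟩ := run0 C (true :: w) al 0 hok
  rw [h1, List.foldl_cons, scs0t] at hok
  obtain ⟨x, z, h3, h4, _⟩ := tail_shape C _ T w 1 0 (Or.inl ⟨rfl, rfl⟩) hok (by omega)
  refine ⟨al, x, z, ?_, h4, by rw [h3]⟩
  have := h2 (Nat.zero_le _)
  omega

end Pool.Agent.H686.STDEC
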