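import Pool.Agent.H724.ST.Stm

set_option autoImplicit false

namespace Pool.Agent.H686.STOK

open Pool.Agent.H724.ST

/-- The state on the right is more permissive. -/
def Rel (s s' : ℕ × ℕ × ℕ × ℕ) : Prop :=
  s.1 = 3 ∨
  (s'.1 = 0 ∧ ((s.1 = 0 ∧ s'.2.1 ≤ s.2.1) ∨ ((s.1 = 1 ∨ s.1 = 2) ∧ s'.2.1 ≤ s.2.2.2))) ∨
  (s'.1 = 1 ∧ (s.1 = 1 ∨ s.1 = 2) ∧ s'.2.2.2 = s.2.2.2) ∨
  (s'.1 = 2 ∧ s.1 = 2 ∧ s'.2.2.1 = s.2.2.1 ∧ s'.2.2.2 = s.2.2.2)

theorem scs0t (C : Chk) (al l g : ℕ) : scs C (0, al, l, g) true = (1, al, 0, 0) := rfl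

theorem scs0f (C : Chk) (al l g : ℕ) :
    scs C (0, al, l, g) false = if al < C.E then (0, al + 1, 0, 0) else (3, 0, 0, 0) := rfl

theorem scs1t (C : Chk) (al l g : ℕ) :
    scs C (1, al, l, g) true = if good C g = true then (2, al, g, 0) else (3, 0, 0, 0) := rfl

theorem scs1f (C : Chk) (al l g : ℕ) :
    scs C (1, al, l, g) false = if g < C.E then (1, al, 0, g + 1) else (3, 0, 0, 0) := rfl

theorem scs2t (C : Chk) (al l g : ℕ) :
    scs C (2, al, l, g) true = if good C g = true ∧
          C.l2 (l / (C.N + 1) - 1) (g / (C.N + 1) - 1) = true then (2, al, g, 0)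
      else (3, 0, 0, 0) := rfl

theorem scs2f (C : Chk) (al l g : ℕ) :
    scs C (2, al, l, g) false = if g < C.E then (2, al, l, g + 1) else (3, 0, 0, 0) := rfl

theorem scs3 (C : Chk) (al l g : ℕ) (b : Bool) : scs C (3, al, l, g) b = (3, 0, 0, 0) := rfl

theorem rel_step (C : Chk) (s s' : ℕ × ℕ × ℕ × ℕ) (b : Bool) (h : Rel s s') :
    Rel (scs C s b) (scs C s' b) := by
  obtain ⟨t, al, l, g⟩ := s
  obtain ⟨t', al', l', g'⟩ := s'
  unfold Rel at h
  simp only at h
  rcases h with h | ⟨h1, h | ⟨h2 | h2, h⟩⟩ | ⟨h1, h2 | h2, h⟩ | ⟨h1, h2, h3, h4⟩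
  · subst h
    rw [scs3]
    exact Or.inl rfl
  · obtain ⟨h2, h3⟩ := h
    subst h1 h2
    cases b with
    | true =>
      rw [scs0t, scs0t]
      unfold Rel; simp
    | false =>
      rw [scs0f, scs0f]
      unfold Rel
      split_ifs <;> simp <;> omega
  · subst h1 h2
    cases b with
    | true =>
      rw [scs0t, scs1t]
      unfold Rel
      split_ifs <;> simp
    | false =>
      rw [scs0f, scs1f]
      unfold Rel
      split_ifs <;> simp <;> omega
  · subst h1 h2
    cases b with
    | true =>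
      rw [scs0t, scs2t]
      unfold Rel
      split_ifs <;> simp
    | false =>
      rw [scs0f, scs2f]
      unfold Rel
      split_ifs <;> simp <;> omega
  · subst h1 h2 h
    cases b with
    | true =>
      rw [scs1t, scs1t]
      unfold Rel
      split_ifs <;> simp
    | false =>
      rw [scs1f, scs1f]
      unfold Rel
      split_ifs <;> simp
  · subst h1 h2 h
    cases b with
    | true =>
      rw [scs1t, scs2t]
      unfold Rel
      split_ifs with q1 q2 q3
      · simp
      · exact absurd q1.1 q2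
      · simp
      · simp
    | false =>
      rw [scs1f, scs2f]
      unfold Rel
      split_ifs <;> simp
  · subst h1 h2 h3 h4
    cases b with
    | true =>
      rw [scs2t, scs2t]
      unfold Rel
      split_ifs <;> simp
    | false =>
      rw [scs2f, scs2f]
      unfold Rel
      split_ifs <;> simp

theorem rel_foldl (C : Chk) (u : List Bool) : ∀ s s', Rel s s' →
    Rel (u.foldl (scs C) s) (u.foldl (scs C) s') := by
  induction u with
  | nil => intro s s' h; exact h
  | cons b u ih => intro s s' h; exact ih _ _ (rel_step C s s' b h)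

theorem ok_cons (C : Chk) (b : Bool) (u : List Bool) (h : OK C (b :: u)) : OK C u := by
  unfold OK sc at *
  rw [List.foldl_cons] at h
  have h0 : Rel (scs C (0, 0, 0, 0) b) (0, 0, 0, 0) := by
    cases b with
    | true => rw [scs0t]; unfold Rel; simp
    | false => rw [scs0f]; unfold Rel; split_ifs <;> simp
  have := rel_foldl C u _ _ h0
  intro h3
  rcases this with h' | ⟨h', _⟩ | ⟨h', _⟩ | ⟨h', _⟩
  · exact h h'
  · rw [h3] at h'; omega
  · rw [h3] at h'; omega
  · rw [h3] at h'; omega

theorem ok : S_OK := by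
  intro C u v h
  induction u with
  | nil => exact h
  | cons b u ih => exact ih (ok_cons C b _ h)

end Pool.Agent.H686.STOK
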