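import Pool.Agent.H724.ST.Stm

set_option autoImplicit false

namespace Pool.Agent.H686.STSC

open Pool.Agent.H724.ST

theorem sc_snoc (C : Chk) (u : List Bool) (b : Bool) : sc C (u ++ [b]) = scs C (sc C u) b := by
  unfold sc
  rw [List.foldl_append]
  rfl

theorem sc_nil (C : Chk) : sc C [] = (0, 0, 0, 0) := rfl

theorem rn_succ (n : ℕ) : rn (n + 1) = rn n ++ [false] := by
  unfold rn
  rw [List.replicate_succ']

/-- The invariant of the scanner. -/
def Inv (C : Chk) (u : List Bool) (s : ℕ × ℕ × ℕ × ℕ) : Prop :=
  (∃ al, s = (0, al, 0, 0) ∧ u = rn al ∧ al ≤ C.E) ∨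
  (∃ al g, s = (1, al, 0, g) ∧ u = rn al ++ true :: rn g ∧ al ≤ C.E ∧ g ≤ C.E) ∨
  (∃ al l g, s = (2, al, l, g) ∧ al ≤ C.E ∧ g ≤ C.E ∧ l ≤ C.E ∧ ∃ z, u = rn al ++ true :: z) ∨
  s = (3, 0, 0, 0)

theorem inv (C : Chk) (u : List Bool) : Inv C u (sc C u) := by
  induction u using List.reverseRecOn with
  | nil => exact Or.inl ⟨0, rfl, rfl, Nat.zero_le _⟩
  | append_singleton u b ih =>
    rw [sc_snoc]
    rcases ih with ⟨al, h1, h2, h3⟩ | ⟨al, g, h1, h2, h3, h4⟩ | ⟨al, l, g, h1, h2, h3, h4, z, h5⟩ | h1
    · rw [h1]
      unfold scs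
      simp only [if_true]
      cases b with
      | true =>
        simp only [if_true]
        exact Or.inr (Or.inl ⟨al, 0, rfl, by rw [h2]; rfl, h3, Nat.zero_le _⟩)
      | false =>
        simp only [Bool.false_eq_true, if_false]
        split_ifs with h
        · exact Or.inl ⟨al + 1, rfl, by rw [h2, rn_succ], h⟩
        · exact Or.inr (Or.inr (Or.inr rfl))
    · rw [h1]
      unfold scs
      simp only [one_ne_zero, if_false, if_true]
      cases b with
      | true =>
        simp only [if_true]
        split_ifs with h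
        · exact Or.inr (Or.inr (Or.inl ⟨al, g, 0, rfl, h3, Nat.zero_le _, h4, rn g ++ [true], by
            rw [h2]; simp⟩))
        · exact Or.inr (Or.inr (Or.inr rfl))
      | false =>
        simp only [Bool.false_eq_true, if_false]
        split_ifs with h
        · exact Or.inr (Or.inl ⟨al, g + 1, rfl, by rw [h2, rn_succ]; simp, h3, h⟩)
        · exact Or.inr (Or.inr (Or.inr rfl))
    · rw [h1]
      unfold scs
      simp only [OfNat.ofNat_ne_zero, OfNat.ofNat_ne_one, if_false, if_true]
      cases b with
      | true =>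
        simp only [if_true]
        split_ifs with h
        · exact Or.inr (Or.inr (Or.inl ⟨al, g, 0, rfl, h2, Nat.zero_le _, h3, z ++ [true], by
            rw [h5]; simp⟩))
        · exact Or.inr (Or.inr (Or.inr rfl))
      | false =>
        simp only [Bool.false_eq_true, if_false]
        split_ifs with h
        · exact Or.inr (Or.inr (Or.inl ⟨al, l, g + 1, rfl, h2, h, h4, z ++ [false], by
            rw [h5]; simp⟩))
        · exact Or.inr (Or.inr (Or.inr rfl))
    · rw [h1]
      exact Or.inr (Or.inr (Or.inr rfl))

theorem first_run {al be : ℕ} : ∀ {z z' : List Bool}, rn al ++ true :: z = rn be ++ true :: z' →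
    al = be := by
  unfold rn
  induction al generalizing be with
  | zero =>
    intro z z' h
    cases be with
    | zero => rfl
    | succ b => simp [List.replicate_succ] at h
  | succ a ih =>
    intro z z' h
    cases be with
    | zero => simp [List.replicate_succ] at h
    | succ b =>
      simp only [List.replicate_succ, List.cons_append, List.cons.injEq, true_and] at h
      rw [ih h]

theorem absorb (C : Chk) (v : List Bool) : ∀ s : ℕ × ℕ × ℕ × ℕ, s.1 = 3 →
    (v.foldl (scs C) s).1 = 3 := by
  induction v with
  | nil => intro s h; exact h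
  | cons b v ih =>
    intro s h
    rw [List.foldl_cons]
    apply ih
    unfold scs
    simp [h]

theorem sc_ : S_SC := by
  intro C
  refine ⟨?_, ?_, ?_, ?_, ?_, ?_, ?_, ?_⟩
  · intro u al l g h
    have hi := inv C u
    rw [h] at hi
    rcases hi with ⟨al', h1, h2, h3⟩ | ⟨al', g', h1, h2, h3, h4⟩ | ⟨al', l', g', h1, _⟩ | h1
    · simp only [Prod.mk.injEq, true_and] at h1
      obtain ⟨rfl, rfl, rfl⟩ := h1
      exact ⟨h2, h3, rfl, rfl⟩
    · simp at h1
    · simp at h1
    · simp at h1
  · intro u al l g h
    have hi := inv C u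
    rw [h] at hi
    rcases hi with ⟨al', h1, h2, h3⟩ | ⟨al', g', h1, h2, h3, h4⟩ | ⟨al', l', g', h1, _⟩ | h1
    · simp at h1
    · simp only [Prod.mk.injEq, true_and] at h1
      obtain ⟨rfl, rfl, rfl⟩ := h1
      exact ⟨h2, h3, h4, rfl⟩
    · simp at h1
    · simp at h1
  · intro u al l g h
    have hi := inv C u
    rw [h] at hi
    rcases hi with ⟨al', h1, h2, h3⟩ | ⟨al', g', h1, h2, h3, h4⟩ | ⟨al', l', g', h1, h2, h3, h4, h5⟩ | h1
    · simp at h1
    · simp at h1
    · simp only [Prod.mk.injEq, true_and] at h1
      obtain ⟨rfl, rfl, rfl⟩ := h1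
      exact ⟨h2, h3, h4, h5⟩
    · simp at h1
  · intro u
    rcases inv C u with ⟨al', h1, _⟩ | ⟨al', g', h1, _⟩ | ⟨al', l', g', h1, _⟩ | h1
    · rw [h1]; simp
    · rw [h1]; simp
    · rw [h1]; simp
    · rw [h1]; simp
  · intro al
    induction al with
    | zero => intro _; rfl
    | succ n ih =>
      intro h
      rw [rn_succ, sc_snoc, ih (by omega)]
      unfold scs
      simp only [if_true, Bool.false_eq_true, if_false]
      rw [if_pos (by omega)]
  · intro al g ha
    have h0 : sc C (rn al) = (0, al, 0, 0) := by
      clear g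
      induction al with
      | zero => rfl
      | succ n ih =>
        rw [rn_succ, sc_snoc, ih (by omega)]
        unfold scs
        simp only [if_true, Bool.false_eq_true, if_false]
        rw [if_pos (by omega)]
    induction g with
    | zero =>
      intro _
      show sc C (rn al ++ [true]) = _
      rw [sc_snoc, h0]
      unfold scs
      simp
    | succ n ih =>
      intro h
      have e : rn al ++ true :: rn (n + 1) = (rn al ++ true :: rn n) ++ [false] := by
        rw [rn_succ]; simp
      rw [e, sc_snoc, ih (by omega)]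
      unfold scs
      simp only [one_ne_zero, if_false, if_true, Bool.false_eq_true]
      rw [if_pos (by omega)]
  · intro u al z hok hu
    rcases inv C u with ⟨al', h1, h2, h3⟩ | ⟨al', g', h1, h2, h3, h4⟩ |
      ⟨al', l', g', h1, h2, h3, h4, z', h5⟩ | h1
    · exfalso
      have : true ∈ rn al' := by
        rw [← h2, hu]; simp
      unfold rn at this
      rw [List.mem_replicate] at this
      exact absurd this.2 (by decide)
    · have : al = al' := first_run (hu.symm.trans h2)
      subst this
      rw [h1]
      exact ⟨h3, rfl, Or.inl rfl⟩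
    · have : al = al' := first_run (hu.symm.trans h5)
      subst this
      rw [h1]
      exact ⟨h2, rfl, Or.inr rfl⟩
    · exact absurd (by rw [h1]) hok
  · intro u v h hu
    apply h
    unfold sc at hu ⊢
    rw [List.foldl_append]
    exact absorb C v _ hu

end Pool.Agent.H686.STSC
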