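import Pool.Agent.H812.SO.Stm

set_option autoImplicit false

/-! # Task SO-STU (helper812): Sturm comparison, upper bound for the distance to the next zero -/

namespace Pool.Agent.H686.SoSTU

open Set Pool.Agent.H812.SO

theorem pos_case (w w1 q : ℝ → ℝ) (a ω : ℝ) (hω : 0 < ω)
    (h : ∀ t ∈ Icc a (a + Real.pi / ω), HasDerivAt w (w1 t) t ∧ HasDerivAt w1 (-(q t) * w t) t ∧
      ω ^ 2 < q t) (hpos : ∀ t ∈ Ioo a (a + Real.pi / ω), 0 < w t) : False := by
  have hpi := Real.pi_pos
  have hlt : a < a + Real.pi / ω := by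
    have : 0 < Real.pi / ω := by positivity
    linarith
  have hcont : ContinuousOn w (Icc a (a + Real.pi / ω)) := fun t ht =>
    (h t ht).1.continuousAt.continuousWithinAt
  -- nonnegative at the end points
  have hcl : ∀ t ∈ Icc a (a + Real.pi / ω), 0 ≤ w t := by
    have hsub : closure (Ioo a (a + Real.pi / ω)) ⊆ {t | t ∈ Icc a (a + Real.pi / ω) ∧ 0 ≤ w t} := by
      apply closure_minimal
      · intro t ht
        exact ⟨Ioo_subset_Icc_self ht, (hpos t ht).le⟩
      · have := hcont.preimage_isClosed_of_isClosed isClosed_Icc (isClosed_Ici (a := (0 : ℝ)))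
        exact this
    rw [closure_Ioo hlt.ne] at hsub
    exact fun t ht => (hsub ht).2
  set Φ : ℝ → ℝ := fun t => w1 t * Real.sin (ω * (t - a)) - w t * (ω * Real.cos (ω * (t - a))) with hΦ
  have hs : ∀ t, HasDerivAt (fun t => Real.sin (ω * (t - a))) (Real.cos (ω * (t - a)) * ω) t := by
    intro t
    have h1 : HasDerivAt (fun t : ℝ => ω * (t - a)) ω t := by
      simpa using ((hasDerivAt_id t).sub_const a).const_mul ω
    exact h1.sin
  have hc : ∀ t, HasDerivAt (fun t => ω * Real.cos (ω * (t - a))) (ω * (-Real.sin (ω * (t - a)) * ω)) t := by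
    intro t
    have h1 : HasDerivAt (fun t : ℝ => ω * (t - a)) ω t := by
      simpa using ((hasDerivAt_id t).sub_const a).const_mul ω
    exact h1.cos.const_mul ω
  have hd : ∀ t ∈ Icc a (a + Real.pi / ω),
      HasDerivAt Φ (-(q t - ω ^ 2) * w t * Real.sin (ω * (t - a))) t := by
    intro t ht
    obtain ⟨h1, h2, h3⟩ := h t ht
    refine HasDerivAt.congr_deriv (f := Φ) ((h2.mul (hs t)).sub (h1.mul (hc t))) ?_
    ring
  have hanti : StrictAntiOn Φ (Icc a (a + Real.pi / ω)) := by
    apply strictAntiOn_of_deriv_neg (convex_Icc _ _)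
      (fun t ht => (hd t ht).continuousAt.continuousWithinAt)
    intro t ht
    rw [interior_Icc] at ht
    rw [(hd t (Ioo_subset_Icc_self ht)).deriv]
    have h3 := (h t (Ioo_subset_Icc_self ht)).2.2
    have hsin : 0 < Real.sin (ω * (t - a)) := by
      apply Real.sin_pos_of_pos_of_lt_pi
      · exact mul_pos hω (by linarith [ht.1])
      · have h5 : t - a < Real.pi / ω := by linarith [ht.2]
        calc ω * (t - a) < ω * (Real.pi / ω) := mul_lt_mul_of_pos_left h5 hω
          _ = Real.pi := by field_simp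
    have h6 : 0 < (q t - ω ^ 2) * w t * Real.sin (ω * (t - a)) :=
      mul_pos (mul_pos (by linarith) (hpos t ht)) hsin
    linarith
  have h1 := hanti (left_mem_Icc.2 hlt.le) (right_mem_Icc.2 hlt.le) hlt
  have e1 : ω * (a + Real.pi / ω - a) = Real.pi := by field_simp; ring
  simp only [hΦ, e1, sub_self, mul_zero, Real.sin_zero, Real.cos_zero, Real.sin_pi, Real.cos_pi] at h1
  have h2 := mul_nonneg hω.le (hcl a (left_mem_Icc.2 hlt.le))
  have h3 := mul_nonneg hω.le (hcl _ (right_mem_Icc.2 hlt.le))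
  linarith

theorem proof_STU : S_STU := by
  intro w w1 q a ω hω h
  by_contra hne
  push Not at hne
  have hpi := Real.pi_pos
  have hlt : a < a + Real.pi / ω := by
    have : 0 < Real.pi / ω := by positivity
    linarith
  have hcont : ContinuousOn w (Ioo a (a + Real.pi / ω)) := fun t ht =>
    (h t (Ioo_subset_Icc_self ht)).1.continuousAt.continuousWithinAt
  obtain ⟨m, hm⟩ : (Ioo a (a + Real.pi / ω)).Nonempty := nonempty_Ioo.2 hlt
  rcases lt_or_gt_of_ne (hne m hm) with h0 | h0
  · refine pos_case (fun t => -w t) (fun t => -w1 t) q a ω hω (fun t ht => ?_) fun t ht => ?_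
    · obtain ⟨h1, h2, h3⟩ := h t ht
      refine ⟨h1.neg, ?_, h3⟩
      refine HasDerivAt.congr_deriv (f := fun t => -w1 t) h2.neg ?_
      show -(-(q t) * w t) = -(q t) * (-w t)
      ring
    · by_contra hle
      have hle' : 0 ≤ w t := by linarith [not_lt.1 hle]
      obtain ⟨s, hs, hs0⟩ := isPreconnected_Ioo.intermediate_value hm ht hcont ⟨h0.le, hle'⟩
      exact hne s hs hs0
  · refine pos_case w w1 q a ω hω h fun t ht => ?_
    by_contra hle
    obtain ⟨s, hs, hs0⟩ := isPreconnected_Ioo.intermediate_value ht hm hcont ⟨not_lt.1 hle, h0.le⟩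
    exact hne s hs hs0

end Pool.Agent.H686.SoSTU
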