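import Pool.Agent.H857.WT.Core

/-!
# W13: Tate classes with eigenvalues matched in pairs and blocks of length `2 m` are generated in
codimension one and `m` (adapted from the proof of S27 by helper962)
-/

set_option autoImplicit false

namespace Pool.Agent.H686.WT

open Module Polynomial Pool.Agent.W521.Descent Pool.Agent.W521.Density Pool.Agent.W521.Count
  Pool.Agent.X297.UB Pool.Agent.H857.PB Pool.Agent.H857.PA Pool.Agent.H857.HK Pool.Agent.H857.EF
  Pool.Agent.H857.WT

/-- Lifting a permutation of the image of a list. -/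
theorem perm_lift {A B : Type*} (f : A → B) {L M : List B} (h : L.Perm M) :
    ∀ W : List A, W.map f = L → ∃ W' : List A, W.Perm W' ∧ W'.map f = M := by
  induction h with
  | nil => intro W hW; exact ⟨W, List.Perm.refl _, hW⟩
  | cons a _ ih =>
    intro W hW
    cases W with
    | nil => simp at hW
    | cons w W =>
      rw [List.map_cons, List.cons.injEq] at hW
      obtain ⟨W', h1, h2⟩ := ih W hW.2
      exact ⟨w :: W', h1.cons w, by rw [List.map_cons, h2, hW.1]⟩
  | swap a b l =>
    intro W hW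
    cases W with
    | nil => simp at hW
    | cons w W =>
      cases W with
      | nil => simp at hW
      | cons v W =>
        rw [List.map_cons, List.map_cons, List.cons.injEq, List.cons.injEq] at hW
        refine ⟨v :: w :: W, List.Perm.swap _ _ _, ?_⟩
        rw [List.map_cons, List.map_cons, hW.1, hW.2.1, hW.2.2]
  | trans _ _ ih1 ih2 =>
    intro W hW
    obtain ⟨W', h1, h2⟩ := ih1 W hW
    obtain ⟨W'', h3, h4⟩ := ih2 W' h2
    exact ⟨W'', h1.trans h3, h4⟩

section

variable {V : Type} [AddCommGroup V] [Module ℂ V]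

theorem iota_anti (u v : V) : ExteriorAlgebra.ι ℂ u * ExteriorAlgebra.ι ℂ v =
    -(ExteriorAlgebra.ι ℂ v * ExteriorAlgebra.ι ℂ u) :=
  eq_neg_of_add_eq_zero_left (ExteriorAlgebra.ι_add_mul_swap u v)

/-- The algebra generated by the Tate classes of codimension one and `m`. -/
abbrev AA (F : V →ₗ[ℂ] V) (Q : ℂ) (m : ℕ) : Subalgebra ℂ (ExteriorAlgebra ℂ V) :=
  Algebra.adjoin ℂ {y : ExteriorAlgebra ℂ V |
    (y ∈ ⋀[ℂ]^2 V ∧ ExteriorAlgebra.map F y = Q • y) ∨
    (y ∈ ⋀[ℂ]^(2 * m) V ∧ ExteriorAlgebra.map F y = Q ^ m • y)}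

theorem mem_two {F : V →ₗ[ℂ] V} {Q : ℂ} {m : ℕ} {u v : V} {μ ν : ℂ} (hu : F u = μ • u)
    (hv : F v = ν • v) (h : μ * ν = Q) :
    ExteriorAlgebra.ι ℂ u * ExteriorAlgebra.ι ℂ v ∈ AA F Q m := by
  refine Algebra.subset_adjoin (Or.inl ⟨?_, ?_⟩)
  · rw [ExteriorAlgebra.exteriorPower, pow_two]
    exact Submodule.mul_mem_mul (LinearMap.mem_range_self _ _) (LinearMap.mem_range_self _ _)
  · rw [map_mul, ExteriorAlgebra.map_apply_ι, ExteriorAlgebra.map_apply_ι, hu, hv, map_smul,
      map_smul, smul_mul_smul_comm, h]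

theorem prod_mem {I : Type*} (b : I → V) (W : List I) :
    (W.map fun i => ExteriorAlgebra.ι ℂ (b i)).prod ∈ ⋀[ℂ]^(W.length) V := by
  induction W with
  | nil =>
    rw [List.map_nil, List.prod_nil, List.length_nil, ExteriorAlgebra.exteriorPower, pow_zero]
    exact Submodule.one_le.1 le_rfl
  | cons i W ih =>
    rw [List.map_cons, List.prod_cons, List.length_cons, ExteriorAlgebra.exteriorPower, pow_succ']
    exact Submodule.mul_mem_mul (LinearMap.mem_range_self _ _) ih

theorem map_prod_eigen {I : Type*} (F : V →ₗ[ℂ] V) (b : I → V) (μ : I → ℂ)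
    (hμ : ∀ i, F (b i) = μ i • b i) (W : List I) :
    ExteriorAlgebra.map F (W.map fun i => ExteriorAlgebra.ι ℂ (b i)).prod =
      (W.map μ).prod • (W.map fun i => ExteriorAlgebra.ι ℂ (b i)).prod := by
  induction W with
  | nil =>
    rw [List.map_nil, List.prod_nil, List.map_nil, List.prod_nil, map_one, one_smul]
  | cons i W ih =>
    rw [List.map_cons, List.prod_cons, List.map_cons, List.prod_cons, map_mul, ih,
      ExteriorAlgebra.map_apply_ι, hμ, map_smul, smul_mul_smul_comm]

theorem mem_block {I : Type*} {F : V →ₗ[ℂ] V} {Q : ℂ} {m : ℕ} {b : I → V} {μ : I → ℂ}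
    (hμ : ∀ i, F (b i) = μ i • b i) {W : List I} (hl : W.length = 2 * m)
    (hp : (W.map μ).prod = Q ^ m) :
    (W.map fun i => ExteriorAlgebra.ι ℂ (b i)).prod ∈ AA F Q m := by
  refine Algebra.subset_adjoin (Or.inr ⟨?_, ?_⟩)
  · rw [← hl]
    exact prod_mem b W
  · rw [map_prod_eigen F b μ hμ W, hp]

/-- The product of eigenvectors with matched eigenvalues. -/
theorem matched_mem {I : Type*} (F : V →ₗ[ℂ] V) (Q : ℂ) (m : ℕ) (b : I → V) (μ : I → ℂ)
    (hμ : ∀ i, F (b i) = μ i • b i) {L : List ℂ} (hL : MatchedM m Q L) :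
    ∀ (W : List I), W.map μ = L →
      (W.map fun i => ExteriorAlgebra.ι ℂ (b i)).prod ∈ AA F Q m := by
  induction hL with
  | nil =>
    intro W hW
    have h0 : W = [] := List.map_eq_nil_iff.1 hW
    subst h0
    exact one_mem _
  | pair hP _ hperm ih =>
    intro W hW
    obtain ⟨W', h1, h2⟩ := perm_lift μ hperm W hW
    obtain ⟨c, hc⟩ := Pool.Agent.W484.HS.prod_perm_anti (K := ℂ)
      (h1.map fun i => ExteriorAlgebra.ι ℂ (b i)) (by
        intro x hx y hy
        rw [List.mem_map] at hx hy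
        obtain ⟨k, _, rfl⟩ := hx
        obtain ⟨l, _, rfl⟩ := hy
        exact iota_anti _ _)
    rw [hc]
    refine Subalgebra.smul_mem _ ?_ _
    cases W' with
    | nil => simp at h2
    | cons i W' =>
      cases W' with
      | nil => simp at h2
      | cons j W' =>
        rw [List.map_cons, List.map_cons, List.cons.injEq, List.cons.injEq] at h2
        obtain ⟨h3, h4, h5⟩ := h2
        rw [List.map_cons, List.map_cons, List.prod_cons, List.prod_cons, ← mul_assoc]
        refine mul_mem (mem_two (hμ i) (hμ j) ?_) (ih W' h5)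
        rw [h3, h4]
        exact hP
  | block hlen hR _ hperm ih =>
    intro W hW
    obtain ⟨W', h1, h2⟩ := perm_lift μ hperm W hW
    obtain ⟨c, hc⟩ := Pool.Agent.W484.HS.prod_perm_anti (K := ℂ)
      (h1.map fun i => ExteriorAlgebra.ι ℂ (b i)) (by
        intro x hx y hy
        rw [List.mem_map] at hx hy
        obtain ⟨k, _, rfl⟩ := hx
        obtain ⟨l, _, rfl⟩ := hy
        exact iota_anti _ _)
    rw [hc]
    refine Subalgebra.smul_mem _ ?_ _
    obtain ⟨W1, W2, rfl, h3, h4⟩ := List.map_eq_append_iff.1 h2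
    rw [List.map_append, List.prod_append]
    refine mul_mem (mem_block hμ ?_ ?_) (ih W2 h4)
    · rw [← hlen, ← h3, List.length_map]
    · rw [h3, hR]

end

theorem w13 : W13 := by
  intro m Q g _ _ hg V _ _ _ F hF n s x hs hx hFx
  classical
  obtain ⟨d, b, μ, hμE, hμ⟩ := Pool.Agent.H925R2.exists_eigenbasis F {z : ℂ | aeval z g = 0} hF
  have hμs : ∀ (k : ℕ) (i), (F ^ k) (b i) = (μ i ^ k) • b i := by
    intro k i
    induction k with
    | zero => simp
    | succ k ih => rw [pow_succ', Module.End.mul_apply, ih, map_smul, hμ, smul_smul, pow_succ]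
  set B := b.exteriorPower (2 * n) with hBdef
  set α : Set.powersetCard (Fin d) (2 * n) → ℂ := fun J =>
    ∏ l, μ (Set.powersetCard.ofFinEmbEquiv.symm J l) ^ s with hα
  have hB : ∀ J, exteriorPower.map (2 * n) (F ^ s) (B J) = α J • B J := by
    intro J
    rw [hBdef, exteriorPower.basis_apply, exteriorPower.map_apply_ιMulti_family]
    unfold exteriorPower.ιMulti_family
    have h1 : (⇑(F ^ s) ∘ b) ∘ (Set.powersetCard.ofFinEmbEquiv.symm J) =
        fun l => (μ (Set.powersetCard.ofFinEmbEquiv.symm J l) ^ s) •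
          (b ∘ (Set.powersetCard.ofFinEmbEquiv.symm J)) l := by
      funext l
      simp only [Function.comp_apply, hμs]
    rw [h1]
    exact (exteriorPower.ιMulti ℂ (2 * n)).toMultilinearMap.map_smul_univ _ _
  have hxe : (⟨x, hx⟩ : ⋀[ℂ]^(2 * n) V) ∈
      Module.End.eigenspace (exteriorPower.map (2 * n) (F ^ s)) (((Q : ℂ) ^ n) ^ s) := by
    rw [Module.End.mem_eigenspace_iff]
    apply Subtype.ext
    rw [Pool.Agent.W521.Pole.map_coe]
    exact hFx
  rw [Pool.Agent.W521.Pole.eigenspace_eq_span B _ α hB] at hxe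
  have key : ∀ z : ⋀[ℂ]^(2 * n) V, z ∈ Submodule.span ℂ (Set.range fun i :
      {i // α i = ((Q : ℂ) ^ n) ^ s} => B i.1) → (z : ExteriorAlgebra ℂ V) ∈ AA F (Q : ℂ) m := by
    intro z hz
    induction hz using Submodule.span_induction with
    | mem z hz =>
      obtain ⟨⟨J, hJ⟩, rfl⟩ := hz
      simp only
      have e1 : ((B J : ⋀[ℂ]^(2 * n) V) : ExteriorAlgebra ℂ V) =
          ((List.ofFn fun l => Set.powersetCard.ofFinEmbEquiv.symm J l).map
            fun i => ExteriorAlgebra.ι ℂ (b i)).prod := by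
        rw [hBdef, exteriorPower.basis_apply]
        unfold exteriorPower.ιMulti_family
        rw [exteriorPower.ιMulti_apply_coe, ExteriorAlgebra.ιMulti_apply, List.map_ofFn]
        rfl
      rw [e1]
      refine matched_mem F (Q : ℂ) m b μ hμ (hg.matched s hs ((List.ofFn fun l =>
        Set.powersetCard.ofFinEmbEquiv.symm J l).map μ) ?_ n 1 one_pos ?_) _ rfl
      · intro y hy
        rw [List.mem_map] at hy
        obtain ⟨i, _, rfl⟩ := hy
        exact hμE i
      · rw [pow_one, pow_one, zpow_natCast, ← pow_mul, mul_comm s n, pow_mul, ← hJ, hα,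
          List.map_map, List.map_ofFn, List.prod_ofFn]
        rfl
    | zero => exact zero_mem _
    | add y z _ _ hy hz => exact add_mem hy hz
    | smul c y _ hy => exact Subalgebra.smul_mem _ hy c
  exact key _ hxe

end Pool.Agent.H686.WT
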